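import Mathlib

open Finset

namespace Pool.Agent.Lib.MP_56f651_co

/-- a sign sequence with two-level autocorrelation -/
structure Had {R : Type} [AddCommGroup R] [Fintype R] (s : R → ℤ) : Prop where
  sq : ∀ x, s x = 1 ∨ s x = -1
  sum : ∑ x, s x = 1
  cor : ∀ d, d ≠ 0 → ∑ x, s x * s (x + d) = -1

lemma Had.mul_self {R : Type} [AddCommGroup R] [Fintype R] {s : R → ℤ} (h : Had s) (x : R) :
    s x * s x = 1 := by rcases h.sq x with h | h <;> rw [h] <;> norm_num

lemma Had.equiv {R R' : Type} [AddCommGroup R] [Fintype R] [AddCommGroup R'] [Fintype R']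
    {s : R → ℤ} (h : Had s) (e : R' ≃+ R) : Had fun x => s (e x) :=
  ⟨fun x => h.sq _, (Equiv.sum_comp e.toEquiv s).trans h.sum, fun d hd => by
    simp only [map_add]
    exact (Equiv.sum_comp e.toEquiv fun x => s x * s (x + e d)).trans
      (h.cor _ (by simpa using hd))⟩

/-- marginal over a family of shifts -/
lemma Had.marg {R ι : Type} [AddCommGroup R] [Fintype R] [Fintype ι] [DecidableEq ι] {s : R → ℤ}
    (h : Had s) {c : ι → R} (hc : Function.Injective c) :
    ∑ y, (∑ i, s (y + c i)) ^ 2 = Fintype.card ι * (Fintype.card R - Fintype.card ι + 1 : ℤ) := by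
  have h1 : ∀ i j, ∑ y, s (y + c i) * s (y + c j) =
      -1 + if i = j then (Fintype.card R + 1 : ℤ) else 0 := by
    intro i j
    rw [← Equiv.sum_comp (Equiv.subRight (c i))]
    simp only [Equiv.subRight_apply, sub_add_cancel]
    split_ifs with hij
    · subst hij; simp [h.mul_self]
    · simp only [sub_add_eq_add_sub, add_sub_assoc]
      rw [h.cor _ (sub_ne_zero.mpr fun h => hij (hc h).symm), add_zero]
  simp only [pow_two, sum_mul_sum]
  rw [sum_comm, sum_congr rfl fun i _ => sum_comm]
  simp only [h1, sum_add_distrib, sum_const, card_univ, sum_ite_eq, mem_univ, if_true]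
  ring

lemma Had.symm {v : ℕ} [NeZero v] (hv : v % 4 = 3) {s : ZMod v → ℤ} (h : Had s)
    (hs : ∀ x, s (-x) = s x) : v = 3 := by
  have h2 : IsUnit (2 : ZMod v) := by
    have := (ZMod.isUnit_iff_coprime 2 v).mpr (by
      rw [Nat.coprime_two_left, Nat.odd_iff]; omega)
    simpa using this
  let g : ZMod v → ZMod v → ℤ := fun d x => if s x = -1 ∧ s (x + d) = -1 then 1 else 0
  have h1 : ∀ d, d ≠ 0 → 4 * ∑ x, g d x = v - 3 := by
    intro d hd
    have e1 : ∀ x, 4 * g d x = 1 - s x - s (x + d) + s x * s (x + d) := fun x => by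
      rcases h.sq x with a | a <;> rcases h.sq (x + d) with b | b <;> simp [g, a, b]
    have e2 : ∑ x, s (x + d) = 1 := (Equiv.sum_comp (Equiv.addRight d) s).trans h.sum
    simp only [mul_sum, e1, sum_add_distrib, sum_sub_distrib, h.sum, e2, h.cor d hd, sum_const,
      card_univ, ZMod.card]
    ring
  have h3 : ∀ a : ZMod v, ((∑ x, g (2 * a) x : ℤ) : ZMod 2) = if s a = -1 then 1 else 0 := by
    intro a
    rw [Int.cast_sum, ← add_sum_erase _ _ (mem_univ (-a)),
      sum_involution (fun x _ => -(x + 2 * a)), add_zero]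
    · simp only [g, hs, show -a + 2 * a = a by ring, and_self]
      split_ifs <;> simp
    · intro x _
      have : g (2 * a) (-(x + 2 * a)) = g (2 * a) x := by
        simp only [g, show -(x + 2 * a) + 2 * a = -x by ring, hs, and_comm]
      rw [this, CharTwo.add_self_eq_zero]
    · intro x hx _ h4
      exact (mem_erase.mp hx).1 (h2.mul_left_cancel (by linear_combination -h4))
    · intro x hx
      exact mem_erase.mpr ⟨fun h4 => (mem_erase.mp hx).1 (by linear_combination -h4), mem_univ _⟩
    · intro x _; ring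
  have h4 : ∀ a b : ZMod v, a ≠ 0 → b ≠ 0 → s a = s b := by
    intro a b ha hb
    have e1 := h1 (2 * a) (by rwa [Ne, h2.mul_right_eq_zero])
    have e2 := h1 (2 * b) (by rwa [Ne, h2.mul_right_eq_zero])
    have e3 := h3 a
    rw [show ∑ x, g (2 * a) x = ∑ x, g (2 * b) x by omega, h3] at e3
    rcases h.sq a with a | a <;> rcases h.sq b with b | b <;> simp_all
  have : Fact (1 < v) := ⟨by omega⟩
  have h5 := h.sum
  rw [← add_sum_erase _ _ (mem_univ 0), sum_congr rfl fun x hx => h4 x 1 (mem_erase.mp hx).1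
    one_ne_zero, sum_const, card_erase_of_mem (mem_univ _), card_univ, ZMod.card, nsmul_eq_mul] at h5
  rcases h.sq 0 with a | a <;> rcases h.sq 1 with b | b <;> rw [a, b] at h5 <;> omega

/-- a prime square cannot divide v -/
lemma Had.sqfree {p w : ℕ} [NeZero (p * w)] (hp : p.Prime) (h3 : 3 ≤ p) (hw : p ∣ w)
    {s : ZMod (p * w) → ℤ} (h : Had s) (hs : ∀ u : (ZMod (p * w))ˣ, ∀ x, s (u * u * x) = s x) :
    False := by
  have := Fact.mk hp
  have hw0 : 0 < w := Nat.pos_of_ne_zero fun h => NeZero.ne (p * w) (by simp [h])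
  let c : ZMod p → ZMod (p * w) := fun i => (w * i.val : ℕ)
  have hc : Function.Injective c := fun i j hij => by
    have h1 := (ZMod.natCast_eq_natCast_iff' _ _ _).mp hij
    rw [mul_comm p w, Nat.mul_mod_mul_left, Nat.mul_mod_mul_left, Nat.mod_eq_of_lt i.val_lt,
      Nat.mod_eq_of_lt j.val_lt] at h1
    exact ZMod.val_injective p (Nat.eq_of_mul_eq_mul_left hw0 h1)
  have hm := h.marg hc
  rw [ZMod.card, ZMod.card] at hm
  let π := ZMod.castHom (dvd_mul_right p w) (ZMod p)
  have hpw : (p : ZMod (p * w)) * w = 0 := by rw [← Nat.cast_mul, ZMod.natCast_self]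
  have hww : (w : ZMod (p * w)) * w = 0 := by
    obtain ⟨k, hk⟩ := hw
    have h1 : (w : ZMod (p * w)) = p * k := by rw [← Nat.cast_mul, ← hk]
    linear_combination (w : ZMod (p * w)) * h1 + k * hpw
  have h1 : ∀ y, π y ≠ 0 → ∀ i, s (y + c i) = s y := by
    intro y hy i
    have h2 : (2 : ZMod p) ≠ 0 := fun h => by
      have := Nat.le_of_dvd (by norm_num) ((ZMod.natCast_eq_zero_iff 2 p).mp h); omega
    let j : ZMod (p * w) := ((i / (2 * π y)).val : ℕ)
    have h4 : π (2 * j * y - i.val) = 0 := by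
      simp only [j, map_sub, map_mul, map_natCast, ZMod.natCast_zmod_val, map_ofNat]
      field_simp; ring
    obtain ⟨k, hk⟩ : ∃ k : ZMod (p * w), 2 * j * y - i.val = p * k := by
      generalize 2 * j * y - (i.val : ZMod (p * w)) = z at h4
      rw [← ZMod.natCast_zmod_val z, map_natCast, ZMod.natCast_eq_zero_iff] at h4
      obtain ⟨k, hk⟩ := h4
      exact ⟨k, by rw [← ZMod.natCast_zmod_val z, hk, Nat.cast_mul]⟩
    rw [← hs ⟨1 + w * j, 1 - w * j, by linear_combination (-j * j) * hww,
      by linear_combination (-j * j) * hww⟩ y]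
    congr 1
    simp only [c, Nat.cast_mul]
    linear_combination (-j * j * y) * hww - w * hk - k * hpw
  have h2 : (univ.filter fun y => π y = 0).card ≤ w := by
    refine (card_le_card (t := (range w).image fun k : ℕ => ((p * k : ℕ) : ZMod (p * w)))
      fun y hy => ?_).trans (card_image_le.trans (card_range w).le)
    have h4 := (mem_filter.mp hy).2
    rw [← ZMod.natCast_zmod_val y, map_natCast, ZMod.natCast_eq_zero_iff] at h4
    obtain ⟨k, hk⟩ := h4
    exact mem_image.mpr ⟨k, mem_range.mpr (Nat.lt_of_mul_lt_mul_left (hk ▸ y.val_lt)),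
      by rw [← hk, ZMod.natCast_zmod_val]⟩
  have h4 := card_filter_add_card_filter_not (s := univ) fun y => π y = 0
  rw [card_univ, ZMod.card] at h4
  have h5 : (univ.filter fun y => ¬ π y = 0).card • (p : ℤ) ^ 2 ≤ ∑ y, (∑ i, s (y + c i)) ^ 2 := by
    refine le_trans (card_nsmul_le_sum _ _ _ fun y hy => ?_)
      (sum_le_sum_of_subset_of_nonneg (filter_subset _ _) fun _ _ _ => sq_nonneg _)
    rw [sum_congr rfl fun i _ => h1 y (mem_filter.mp hy).2 i, sum_const, card_univ, ZMod.card,
      nsmul_eq_mul, mul_pow, pow_two (s y), h.mul_self, mul_one]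
  rw [hm, nsmul_eq_mul] at h5
  generalize (univ.filter fun y => ¬ π y = 0).card = N at *
  generalize (univ.filter fun y => π y = 0).card = N' at *
  have h6 : (p : ℤ) * w ≤ w + N := by exact_mod_cast (by omega : p * w ≤ w + N)
  have h7 : (3 : ℤ) ≤ p := by exact_mod_cast h3
  have h8 : (0 : ℤ) < w := by exact_mod_cast hw0
  push_cast at h5
  have h9 : (N : ℤ) * p ≤ p * w - p + 1 := by
    refine le_of_mul_le_mul_left ?_ (show (0 : ℤ) < p by omega); linarith
  nlinarith [mul_le_mul_of_nonneg_right h6 (show (0 : ℤ) ≤ p by omega), mul_pos h8 (show (0 : ℤ) < p by omega)]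

/-- bound on the number of rows that are constant off zero -/
lemma Had.rows {p : ℕ} (hp : p.Prime) (h3 : 3 ≤ p) {R : Type} [AddCommGroup R] [Fintype R]
    [NeZero p] {s : ZMod p × R → ℤ} (h : Had s) (Y : Finset R)
    (hY : ∀ y ∈ Y, ∀ a, a ≠ 0 → s (a, y) = s (1, y)) :
    (Y.card : ℤ) * (p - 3) ≤ Fintype.card R - 1 := by
  classical
  have hm := h.marg (c := fun i : ZMod p => (i, 0)) fun i j hij => congrArg Prod.fst hij
  have h1 : ∀ y : ZMod p × R, ∑ i, s (y + (i, 0)) = ∑ i, s (i, y.2) := fun y => by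
    rw [← Equiv.sum_comp (Equiv.addLeft y.1) fun i => s (i, y.2)]
    exact sum_congr rfl fun i _ => by congr 1; ext <;> simp
  simp only [h1, Fintype.sum_prod_type, sum_const, card_univ, ZMod.card, Fintype.card_prod,
    nsmul_eq_mul] at hm
  have h7 : (3 : ℤ) ≤ p := by exact_mod_cast h3
  have h2 := mul_left_cancel₀ (by omega) hm
  have h4 : ∀ y, 1 + (if y ∈ Y then ((p : ℤ) - 1) * (p - 3) else 0) ≤ (∑ i, s (i, y)) ^ 2 := by
    intro y
    split_ifs with hy
    · rw [← add_sum_erase _ _ (mem_univ 0), sum_congr rfl fun x hx => hY y hy x (mem_erase.mp hx).1,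
        sum_const, card_erase_of_mem (mem_univ _), card_univ, ZMod.card, nsmul_eq_mul,
        Nat.cast_sub (by omega)]
      rcases h.sq (0, y) with a | a <;> rcases h.sq (1, y) with b | b <;> rw [a, b] <;>
        push_cast <;> nlinarith
    · have h5 : ((∑ i, s (i, y) : ℤ) : ZMod 2) = 1 := by
        have : ∀ x, (s x : ZMod 2) = 1 := fun x => by rcases h.sq x with a | a <;> rw [a] <;> rfl
        rw [Int.cast_sum, sum_congr rfl fun i _ => this _, sum_const, card_univ, ZMod.card,
          nsmul_eq_mul, mul_one, ZMod.natCast_eq_one_iff_odd]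
        exact hp.odd_of_ne_two (by omega)
      have h6 : ∑ i, s (i, y) ≠ 0 := fun h => by rw [h] at h5; exact absurd h5 (by decide)
      have := sq_pos_of_ne_zero h6
      omega
  have h5 := sum_le_sum fun y (_ : y ∈ univ) => h4 y
  rw [h2, sum_add_distrib, sum_ite_mem, univ_inter, sum_const, sum_const, card_univ, nsmul_eq_mul,
    nsmul_eq_mul] at h5
  push_cast at h5
  refine le_of_mul_le_mul_left ?_ (show (0 : ℤ) < p - 1 by omega)
  linarith

end Pool.Agent.Lib.MP_56f651_co
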