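import Pool.Agent.Lib.MP_56f651_co.Main

/-! The basic inequality for two sign sequences with two-level autocorrelation. -/

open Finset

namespace Pool.Agent.Lib.MP_56f651_co

variable {R : Type} [AddCommGroup R] [Fintype R] [DecidableEq R]

/-- number of places where two sequences differ -/
def dst (s s' : R → ℤ) : ℤ := ∑ x, if s' x = s x then 0 else 1

/-- self convolution -/
def cnv (s : R → ℤ) (g : R) : ℤ := ∑ x, s x * s (g - x)

omit [AddCommGroup R] [DecidableEq R] in
lemma dst_nonneg (s s' : R → ℤ) : 0 ≤ dst s s' :=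
  sum_nonneg fun x _ => by split_ifs <;> norm_num

omit [AddCommGroup R] [DecidableEq R] in
lemma sum_abs_eq {s s' : R → ℤ} (h : ∀ x, s x = 1 ∨ s x = -1) (h' : ∀ x, s' x = 1 ∨ s' x = -1) :
    ∑ x, |s' x - s x| = 2 * dst s s' := by
  rw [dst, mul_sum]
  refine sum_congr rfl fun x _ => ?_
  rcases h x with a | a <;> rcases h' x with b | b <;> simp [a, b]

omit [AddCommGroup R] [DecidableEq R] in
lemma sum_sq_eq {s s' : R → ℤ} (h : ∀ x, s x = 1 ∨ s x = -1) (h' : ∀ x, s' x = 1 ∨ s' x = -1) :
    ∑ x, (s' x - s x) ^ 2 = 4 * dst s s' := by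
  rw [dst, mul_sum]
  refine sum_congr rfl fun x _ => ?_
  rcases h x with a | a <;> rcases h' x with b | b <;> simp [a, b]

omit [AddCommGroup R] [DecidableEq R] in
lemma eq_of_dst {s s' : R → ℤ} (h : dst s s' = 0) : s' = s := by
  funext x
  have := (sum_eq_zero_iff_of_nonneg (fun x _ => by split_ifs <;> norm_num)).1 h x (mem_univ x)
  by_contra hx
  simp [hx] at this

omit [DecidableEq R] in
lemma dst_ne_one {s s' : R → ℤ} (h : Had s) (h' : Had s') : dst s s' ≠ 1 := by
  intro h1
  have h2 : ∀ x, (s' x - s x + 2 * if s' x = s x then 0 else 1) % 4 = 0 := fun x => by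
    rcases h.sq x with a | a <;> rcases h'.sq x with b | b <;> simp [a, b]
  have h3 : (4 : ℤ) ∣ ∑ x, (s' x - s x + 2 * if s' x = s x then 0 else 1) :=
    dvd_sum fun x _ => Int.dvd_of_emod_eq_zero (h2 x)
  rw [sum_add_distrib, sum_sub_distrib, h.sum, h'.sum, ← mul_sum] at h3
  change _ ∣ _ + 2 * dst s s' at h3
  omega

lemma Had.cor' {s : R → ℤ} (h : Had s) (y y' : R) :
    ∑ d, s (y - d) * s (y' - d) = -1 + if y = y' then (Fintype.card R + 1 : ℤ) else 0 := by
  rw [← Equiv.sum_comp (Equiv.subLeft y)]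
  simp only [Equiv.subLeft_apply, sub_sub_cancel]
  split_ifs with hy
  · subst hy
    simp [h.mul_self]
  · have := h.cor (y' - y) (sub_ne_zero.2 fun h => hy h.symm)
    rw [add_zero, ← this]
    refine sum_congr rfl fun x _ => ?_
    congr 2
    abel

omit [DecidableEq R] in
lemma Had.cor_eq {s s' : R → ℤ} (h : Had s) (h' : Had s') (d : R) :
    ∑ x, s' x * s' (x + d) = ∑ x, s x * s (x + d) := by
  by_cases hd : d = 0
  · simp [hd, h.mul_self, h'.mul_self]
  · rw [h.cor d hd, h'.cor d hd]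

lemma core {s s' : R → ℤ} (h : Had s) (h' : Had s') :
    8 * (Fintype.card R + 1) * dst s s' +
      2 * ∑ y, ∑ y', (s' y - s y) * (s' y' - s y') * cnv s (y + y') ≤ 16 * dst s s' ^ 3 := by
  set e : R → ℤ := fun x => s' x - s x with he
  have e0 : ∑ x, e x = 0 := by simp [he, sum_sub_distrib, h.sum, h'.sum]
  have e1 : ∑ x, |e x| = 2 * dst s s' := sum_abs_eq h.sq h'.sq
  have e2 : ∑ x, e x ^ 2 = 4 * dst s s' := sum_sq_eq h.sq h'.sq
  let F : R → ℤ := fun d => ∑ y, e y * s (y - d)
  let K : R → ℤ := fun d => ∑ x, e x * e (x + d)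
  have a : ∀ d, F d + F (-d) = -K d := by
    intro d
    have h1 := h.cor_eq h' d
    have h2 : ∑ x, s x * e (x + d) = F d := by
      rw [← Equiv.sum_comp (Equiv.subRight d)]
      simp [F, mul_comm]
    have h3 : ∑ x, e x * s (x + d) = F (-d) := by simp [F]
    have h4 : ∑ x, s' x * s' (x + d) = ∑ x, s x * s (x + d) + ∑ x, s x * e (x + d) +
        ∑ x, e x * s (x + d) + K d := by
      simp only [K, ← sum_add_distrib]
      exact sum_congr rfl fun x _ => by simp only [he]; ring
    linarith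
  have b1 : ∀ d, |K d| ≤ 4 * dst s s' := by
    intro d
    have h1 : ∑ x, e (x + d) ^ 2 = 4 * dst s s' :=
      (Equiv.sum_comp (Equiv.addRight d) fun x => e x ^ 2).trans e2
    have h2 : 2 * |K d| ≤ ∑ x, (e x ^ 2 + e (x + d) ^ 2) := by
      refine le_trans (mul_le_mul_of_nonneg_left (abs_sum_le_sum_abs _ _) (by norm_num)) ?_
      rw [mul_sum]
      refine sum_le_sum fun x _ => ?_
      rw [abs_mul, ← sq_abs (e x), ← sq_abs (e (x + d))]
      nlinarith [sq_nonneg (|e x| - |e (x + d)|)]
    rw [sum_add_distrib, e2, h1] at h2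
    linarith
  have b2 : ∑ d, |K d| ≤ (2 * dst s s') ^ 2 := by
    calc ∑ d, |K d| ≤ ∑ d, ∑ x, |e x| * |e (x + d)| :=
          sum_le_sum fun d _ => (abs_sum_le_sum_abs _ _).trans (by simp only [abs_mul]; rfl)
      _ = (2 * dst s s') ^ 2 := by
          rw [sum_comm, pow_two, ← e1, sum_mul]
          refine sum_congr rfl fun x _ => ?_
          rw [← mul_sum]
          congr 1
          exact Equiv.sum_comp (Equiv.addLeft x) fun y => |e y|
  have b : ∑ d, K d ^ 2 ≤ 16 * dst s s' ^ 3 := by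
    calc ∑ d, K d ^ 2 ≤ ∑ d, 4 * dst s s' * |K d| := sum_le_sum fun d _ => by
          rw [← sq_abs, pow_two]
          exact mul_le_mul_of_nonneg_right (b1 d) (abs_nonneg _)
      _ ≤ 4 * dst s s' * (2 * dst s s') ^ 2 := by
          rw [← mul_sum]
          exact mul_le_mul_of_nonneg_left b2 (by linarith [dst_nonneg s s'])
      _ = _ := by ring
  have c : ∑ d, F d ^ 2 = (Fintype.card R + 1) * (4 * dst s s') := by
    have : ∀ d, F d ^ 2 = ∑ y, ∑ y', e y * e y' * (s (y - d) * s (y' - d)) := fun d => by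
      simp only [F, pow_two, sum_mul_sum]
      exact sum_congr rfl fun y _ => sum_congr rfl fun y' _ => by ring
    simp only [this]
    rw [sum_comm, sum_congr rfl fun y _ => sum_comm]
    simp only [← mul_sum, h.cor', mul_add, sum_add_distrib, mul_ite, mul_zero, sum_ite_eq,
      mem_univ, if_true, ← sum_mul, e0]
    rw [← e2]
    simp only [pow_two]
    ring
  have c' : ∑ d, F (-d) ^ 2 = (Fintype.card R + 1) * (4 * dst s s') :=
    (Equiv.sum_comp (Equiv.neg R) fun d => F d ^ 2).trans c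
  have d' : ∑ d, F d * F (-d) = ∑ y, ∑ y', e y * e y' * cnv s (y + y') := by
    have : ∀ d, F d * F (-d) = ∑ y, ∑ y', e y * e y' * (s (y - d) * s (y' + d)) := fun d => by
      simp only [F, sum_mul_sum, sub_neg_eq_add]
      exact sum_congr rfl fun y _ => sum_congr rfl fun y' _ => by ring
    simp only [this]
    rw [sum_comm, sum_congr rfl fun y _ => sum_comm]
    refine sum_congr rfl fun y _ => sum_congr rfl fun y' _ => ?_
    rw [← mul_sum, cnv, ← Equiv.sum_comp (Equiv.subLeft y)]
    simp only [Equiv.subLeft_apply, sub_sub_cancel]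
    congr 1
    refine sum_congr rfl fun x _ => ?_
    congr 2
    abel
  have f : ∑ d, K d ^ 2 = ∑ d, F d ^ 2 + ∑ d, F (-d) ^ 2 + 2 * ∑ d, F d * F (-d) := by
    rw [mul_sum, ← sum_add_distrib, ← sum_add_distrib]
    refine sum_congr rfl fun d _ => ?_
    rw [← neg_sq, ← a]
    ring
  rw [f, c, c', d'] at b
  linarith

lemma core2 {s s' : R → ℤ} (h : Had s) (h' : Had s') {κ B : ℤ} (B0 : 0 ≤ B)
    (hB : ∀ g, g ≠ 0 → |cnv s g - κ| ≤ B) :
    8 * (Fintype.card R + 1) * dst s s' +
      2 * (cnv s 0 - κ) * ∑ y, (s' y - s y) * (s' (-y) - s (-y)) ≤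
      16 * dst s s' ^ 3 + 8 * B * dst s s' ^ 2 := by
  have h1 := core h h'
  set e : R → ℤ := fun x => s' x - s x with he
  have e0 : ∑ x, e x = 0 := by simp [he, sum_sub_distrib, h.sum, h'.sum]
  have e1 : ∑ x, |e x| = 2 * dst s s' := sum_abs_eq h.sq h'.sq
  have h2 : ∀ y y', (if y' = -y then (cnv s 0 - κ) * (e y * e y') else 0) - B * (|e y| * |e y'|) +
      κ * (e y * e y') ≤ e y * e y' * cnv s (y + y') := by
    intro y y'
    have p1 : 0 ≤ B * (|e y| * |e y'|) := by positivity
    split_ifs with hy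
    · rw [show y + y' = 0 by rw [hy, add_neg_cancel]]
      linarith
    · have h3 := hB (y + y') fun h => hy (eq_neg_of_add_eq_zero_right h)
      have h4 : |e y * e y' * (cnv s (y + y') - κ)| ≤ |e y| * |e y'| * B := by
        rw [abs_mul, abs_mul]
        exact mul_le_mul_of_nonneg_left h3 (by positivity)
      have h5 := neg_abs_le (e y * e y' * (cnv s (y + y') - κ))
      linarith
  have h3 := sum_le_sum fun y (_ : y ∈ univ) => sum_le_sum fun y' (_ : y' ∈ univ) => h2 y y'
  simp only [sum_add_distrib, sum_sub_distrib, sum_ite_eq', mem_univ, if_true, ← mul_sum,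
    ← sum_mul, e0, e1] at h3
  change _ + 2 * (cnv s 0 - κ) * ∑ y, e y * e (-y) ≤ _
  change _ + 2 * ∑ y, ∑ y', e y * e y' * cnv s (y + y') ≤ _ at h1
  linarith

/-- The case of a sequence that is odd outside a set `A`. -/
lemma skew {s s' : R → ℤ} (h : Had s) (h' : Had s') (A : Finset R)
    (hA : ∀ x, x ∉ A → s (-x) = -s x) (hc : 2 * (A.card : ℤ) ≤ Fintype.card R + 1) :
    (Fintype.card R + 1) * (dst s s' - ∑ x ∈ A, if s' x = s x then 0 else 1) ≤
      2 * dst s s' ^ 3 + 2 * A.card * dst s s' ^ 2 := by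
  have k : ∀ g, |cnv s g + ∑ x, s (x + g) * s x| ≤ 2 * A.card := by
    intro g
    rw [cnv, ← Equiv.sum_comp (Equiv.addRight g), ← sum_add_distrib]
    refine (abs_sum_le_sum_abs _ _).trans ?_
    have : ∀ x, |s (x + g) * s (g - (x + g)) + s (x + g) * s x| ≤ if x ∈ A then 2 else 0 := by
      intro x
      rw [show g - (x + g) = -x by abel]
      split_ifs with hx
      · rcases h.sq (x + g) with a | a <;> rcases h.sq (-x) with b | b <;>
          rcases h.sq x with c | c <;> simp [a, b, c]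
      · simp [hA x hx]
    refine (sum_le_sum fun x _ => this x).trans ?_
    simp [mul_comm]
  have h1 := core2 h h' (κ := 1) (B := 2 * A.card) (by positivity) fun g hg => by
    have := k g
    simp only [mul_comm (s (_ + g))] at this
    rwa [h.cor g hg] at this
  have h2 := k 0
  simp only [add_zero, h.mul_self, sum_const, card_univ, nsmul_eq_mul, mul_one] at h2
  have h3 : -(Fintype.card R : ℤ) ≤ cnv s 0 := by
    have : ∀ x, -1 ≤ s x * s (0 - x) := fun x => by
      rcases h.sq x with a | a <;> rcases h.sq (0 - x) with b | b <;> rw [a, b] <;> norm_num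
    simpa [cnv] using sum_le_sum fun x (_ : x ∈ univ) => this x
  have h4 : ∑ y, (s' y - s y) * (s' (-y) - s (-y)) ≤ 4 * ∑ x ∈ A, if s' x = s x then 0 else 1 := by
    have : ∀ y, (s' y - s y) * (s' (-y) - s (-y)) ≤
        if y ∈ A then 4 * (if s' y = s y then 0 else 1) else 0 := by
      intro y
      by_cases hy : y ∈ A
      · rcases h.sq y with a | a <;> rcases h.sq (-y) with b | b <;>
          rcases h'.sq y with c | c <;> rcases h'.sq (-y) with d | d <;> simp [a, b, c, d, hy]
      · rw [hA y hy]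
        rcases h.sq y with a | a <;> rcases h'.sq y with c | c <;>
          rcases h'.sq (-y) with d | d <;> simp [a, c, d, hy]
    refine (sum_le_sum fun y _ => this y).trans ?_
    rw [sum_ite_mem, univ_inter, mul_sum]
  have h5 : (0 : ℤ) ≤ ∑ x ∈ A, if s' x = s x then 0 else 1 :=
    sum_nonneg fun x _ => by split_ifs <;> norm_num
  have h6 := (abs_le.1 h2).2
  nlinarith [mul_nonneg (by linarith : 0 ≤ 1 - cnv s 0) (sub_nonneg.2 h4),
    mul_nonneg (by linarith : 0 ≤ cnv s 0 + Fintype.card R) h5]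

end Pool.Agent.Lib.MP_56f651_co
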