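import Pool.Agent.Lib.MP_56f651_co.H83Iso1

/-! Isolation of the quadratic residue sequence and of the twin prime sequence. -/

open Finset

namespace Pool.Agent.Lib.MP_56f651_co

/-- indicator of zero -/
def dl {F : Type} [Zero F] [DecidableEq F] (x : F) : ℤ := if x = 0 then 1 else 0

section field

variable {F : Type} [Field F] [Fintype F] [DecidableEq F]

lemma qc_cor (hF : ringChar F ≠ 2) (a : F) :
    ∑ x, quadraticChar F x * quadraticChar F (x + a) = Fintype.card F * dl a - 1 := by
  by_cases ha : a = 0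
  · have : ∀ x : F, quadraticChar F x * quadraticChar F x = 1 - dl x := fun x => by
      by_cases hx : x = 0
      · simp [hx, dl]
      · rw [← pow_two, quadraticChar_sq_one hx]; simp [hx, dl]
    simp only [ha, add_zero, this]
    simp [dl]
  · have h1 : ∀ x : F, quadraticChar F x * quadraticChar F (x + a) =
        quadraticChar F (1 + a * x⁻¹) - dl x := fun x => by
      by_cases hx : x = 0
      · simp [hx, dl]
      · rw [← map_mul, show x * (x + a) = x ^ 2 * (1 + a * x⁻¹) by field_simp, map_mul,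
          quadraticChar_sq_one' hx]
        simp [hx, dl]
    have h2 : ∑ x : F, quadraticChar F (1 + a * x⁻¹) = 0 := by
      rw [← quadraticChar_sum_zero hF]
      exact Equiv.sum_comp (((Equiv.inv F).trans (Equiv.mulLeft₀ a ha)).trans (Equiv.addLeft 1))
        fun y => quadraticChar F y
    simp only [h1, sum_sub_distrib, h2]
    simp [dl, ha]

omit [Field F] in
lemma sum_dl [Zero F] (f : F → ℤ) : ∑ x, dl x * f x = f 0 := by simp [dl]

lemma sum_dl' (f : F → ℤ) (a : F) : ∑ x, f x * dl (x + a) = f (-a) := by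
  simp [dl, add_eq_zero_iff_eq_neg]

lemma qc_shift (hF : ringChar F ≠ 2) (a : F) : ∑ x, quadraticChar F (x + a) = 0 :=
  (Equiv.sum_comp (Equiv.addRight a) fun y => quadraticChar F y).trans (quadraticChar_sum_zero hF)

/-- the quadratic residue sequence -/
def qr (x : F) : ℤ := dl x - quadraticChar F x

lemma qr_had (hF : ringChar F ≠ 2) (h1 : quadraticChar F (-1) = -1) : Had (qr (F := F)) := by
  refine ⟨fun x => ?_, ?_, fun d hd => ?_⟩
  · by_cases hx : x = 0
    · simp [qr, dl, hx]
    · rcases quadraticChar_dichotomy hx with h | h <;> simp [qr, dl, hx, h]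
  · simp only [qr, sum_sub_distrib, quadraticChar_sum_zero hF]
    simp [dl]
  · have : ∀ x, qr x * qr (x + d) = dl x * qr (x + d) - quadraticChar F x * dl (x + d) +
        quadraticChar F x * quadraticChar F (x + d) := fun x => by simp only [qr]; ring
    simp only [this, sum_add_distrib, sum_sub_distrib, sum_dl, sum_dl', qc_cor hF]
    rw [neg_eq_neg_one_mul d, map_mul, h1]
    simp [qr, dl, hd]

lemma qr_iso (hF : ringChar F ≠ 2) (h1 : quadraticChar F (-1) = -1) {s : F → ℤ} (hs : Had s)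
    (hd : 144 * dst qr s ^ 2 ≤ Fintype.card F) : s = qr := by
  have h0 := qr_had hF h1
  have h2 := skew h0 hs {0} (fun x hx => by
    rw [mem_singleton] at hx
    rw [qr, qr, neg_eq_neg_one_mul x, map_mul, h1]
    simp [dl, hx]) (by
      have := Fintype.card_pos (α := F)
      rw [card_singleton]
      omega)
  have h3 : (∑ x ∈ ({0} : Finset F), if s x = qr x then (0 : ℤ) else 1) ≤ 1 := by
    rw [sum_singleton]
    split_ifs <;> norm_num
  have h4 := dst_nonneg qr s
  have h5 := dst_ne_one h0 hs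
  refine eq_of_dst ?_
  by_contra h6
  have h7 : 2 ≤ dst qr s := by omega
  set m := dst qr s
  set a := ∑ x ∈ ({0} : Finset F), if s x = qr x then (0 : ℤ) else 1
  set N : ℤ := (Fintype.card F : ℤ)
  simp only [card_singleton, Nat.cast_one] at h2
  have h8 : 0 ≤ N := by nlinarith
  nlinarith [mul_nonneg h8 (by linarith : 0 ≤ m - 2), mul_nonneg h8 (by linarith : 0 ≤ 1 - a),
    mul_nonneg h4 (by linarith : 0 ≤ N - 144 * m ^ 2), mul_nonneg (sq_nonneg m) h4]

end field

section twin

variable {F G : Type} [Field F] [Fintype F] [DecidableEq F] [Field G] [Fintype G] [DecidableEq G]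

/-- the twin prime sequence -/
def tw (z : F × G) : ℤ :=
  -(quadraticChar F z.1 * quadraticChar G z.2) - dl z.2 + dl z.1 - dl z.1 * dl z.2

lemma tw_sq (z : F × G) : tw z = 1 ∨ tw z = -1 := by
  obtain ⟨x, y⟩ := z
  by_cases hx : x = 0 <;> by_cases hy : y = 0
  · simp [tw, dl, hx, hy]
  · simp [tw, dl, hx, hy]
  · simp [tw, dl, hx, hy]
  · rcases quadraticChar_dichotomy hx with h | h <;>
      rcases quadraticChar_dichotomy hy with h' | h' <;> simp [tw, dl, hx, hy, h, h']

variable (hF : ringChar F ≠ 2) (hG : ringChar G ≠ 2)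
  (h1 : quadraticChar F (-1) * quadraticChar G (-1) = -1)
  (hc : Fintype.card G = Fintype.card F + 2)

include hF in
lemma tw_col (y : G) : ∑ x : F, tw (x, y) = 1 - (Fintype.card F + 1) * dl y := by
  simp only [tw, sum_add_distrib, sum_sub_distrib, sum_neg_distrib, ← sum_mul,
    quadraticChar_sum_zero hF]
  simp [dl]
  split_ifs <;> ring

include hG in
lemma tw_row (x : F) : ∑ y : G, tw (x, y) = (Fintype.card G - 1) * dl x - 1 := by
  simp only [tw, sum_add_distrib, sum_sub_distrib, sum_neg_distrib, ← mul_sum,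
    quadraticChar_sum_zero hG]
  simp [dl]
  split_ifs <;> ring

include hF hG h1 hc

lemma tw_had : Had (tw (F := F) (G := G)) := by
  refine ⟨tw_sq, ?_, fun d hd => ?_⟩
  · rw [Fintype.sum_prod_type]
    simp only [tw_row hG, sum_sub_distrib, ← mul_sum]
    simp [dl, hc]
    ring
  · obtain ⟨a, b⟩ := d
    let χ := quadraticChar F
    let ψ := quadraticChar G
    have e : ∑ z : F × G, tw z * tw (z + (a, b)) =
        (∑ x, χ x * χ (x + a)) * (∑ y, ψ y * ψ (y + b)) +
        (∑ x, χ x) * (∑ y, ψ y * dl (y + b)) - (∑ x, χ x * dl (x + a)) * (∑ y, ψ y) +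
        (∑ x, χ x * dl (x + a)) * (∑ y, ψ y * dl (y + b)) +
        (∑ x, χ (x + a)) * (∑ y, dl y * ψ (y + b)) +
        (∑ _x : F, 1) * (∑ y, dl y * dl (y + b)) -
        (∑ x, 1 * dl (x + a)) * (∑ y : G, dl y * 1) +
        (∑ x, 1 * dl (x + a)) * (∑ y, dl y * dl (y + b)) -
        (∑ x, dl x * χ (x + a)) * (∑ y, ψ (y + b)) -
        (∑ x : F, dl x * 1) * (∑ y, 1 * dl (y + b)) +
        (∑ x, dl x * dl (x + a)) * (∑ _y : G, 1) -
        (∑ x, dl x * dl (x + a)) * (∑ y, 1 * dl (y + b)) +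
        (∑ x, dl x * χ (x + a)) * (∑ y, dl y * ψ (y + b)) +
        (∑ x : F, dl x * 1) * (∑ y, dl y * dl (y + b)) -
        (∑ x, dl x * dl (x + a)) * (∑ y : G, dl y * 1) +
        (∑ x, dl x * dl (x + a)) * (∑ y, dl y * dl (y + b)) := by
      simp only [Fintype.sum_prod_type, sum_mul_sum, ← sum_add_distrib, ← sum_sub_distrib]
      refine sum_congr rfl fun x _ => sum_congr rfl fun y _ => ?_
      simp only [tw, Prod.fst_add, Prod.snd_add, χ, ψ]
      ring
    have n : χ (-a) * ψ (-b) = -(χ a * ψ b) := by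
      rw [neg_eq_neg_one_mul a, neg_eq_neg_one_mul b, map_mul, map_mul, mul_mul_mul_comm, h1]
      ring
    have z : dl a * dl b = 0 := by
      by_cases ha : a = 0
      · have hb : b ≠ 0 := fun hb => hd (by simp [ha, hb])
        simp [dl, hb]
      · simp [dl, ha]
    rw [e]
    simp only [sum_dl, zero_add]
    simp only [sum_dl', χ, ψ, qc_cor hF, qc_cor hG, quadraticChar_sum_zero hF,
      quadraticChar_sum_zero hG, qc_shift hF, qc_shift hG, sum_const, card_univ, nsmul_eq_mul, hc]
    push_cast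
    linear_combination n + (Fintype.card F * (Fintype.card F + 2) + 1) * z

lemma tw_iso {s : F × G → ℤ} (hs : Had s)
    (hd : 144 * dst tw s ^ 2 ≤ Fintype.card F * Fintype.card G) : s = tw := by
  have h0 := tw_had hF hG h1 hc
  set p : ℤ := (Fintype.card F : ℤ) with hp
  have hq : (Fintype.card G : ℤ) = p + 2 := by rw [hc]; push_cast; rfl
  have p0 : 1 ≤ p := by
    have := Fintype.card_pos (α := F)
    omega
  let e : F × G → ℤ := fun z => s z - tw z
  let i : F × G → ℤ := fun z => if s z = tw z then 0 else 1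
  have i0 : ∀ z, 0 ≤ i z := fun z => by simp only [i]; split_ifs <;> norm_num
  have e0 : ∑ z, e z = 0 := by simp [e, sum_sub_distrib, hs.sum, h0.sum]
  have e1 : ∑ z, |e z| = 2 * dst tw s := sum_abs_eq h0.sq hs.sq
  have ei : ∀ z, e z = -2 * tw z * i z := fun z => by
    rcases hs.sq z with a | a <;> rcases h0.sq z with b | b <;> simp [e, i, a, b]
  have sq : ∀ {ι : Type} [Fintype ι] (f : ι → ℤ), ∑ x, f x ^ 2 ≤ (∑ x, |f x|) ^ 2 := by
    intro ι _ f
    simpa only [sq_abs] using sum_sq_le_sq_sum_of_nonneg (s := univ) (f := fun x => |f x|)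
      fun x _ => abs_nonneg _
  have m0 := dst_nonneg (tw (F := F) (G := G)) s
  -- columns
  have c1 : ∀ {t : F × G → ℤ}, Had t → p * ∑ y, (∑ x, t (x, y)) ^ 2 =
      p * (p * (p + 2) - p + 1) := fun {t} ht => by
    have := ht.marg (c := fun x : F => ((x, 0) : F × G)) fun x y h => congrArg Prod.fst h
    rw [Fintype.sum_prod_type, Fintype.card_prod] at this
    push_cast at this
    rw [hq] at this
    rw [← this]
    have h2 : ∀ x y, ∑ j, t ((x, y) + (j, 0)) = ∑ j, t (j, y) := fun x y => by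
      simpa using Equiv.sum_comp (Equiv.addLeft x) fun j => t (j, y)
    simp only [h2, sum_const, card_univ, nsmul_eq_mul, hp]
  have c2 : (p + 1) * ∑ x, i (x, 0) ≤ dst tw s ^ 2 := by
    have a1 := mul_left_cancel₀ (by omega : p ≠ 0) ((c1 hs).trans (c1 h0).symm)
    have a2 : ∀ y, (∑ x, s (x, y)) ^ 2 = (∑ x : F, tw (x, y)) ^ 2 + (∑ x, e (x, y)) ^ 2 +
        2 * ∑ x, e (x, y) - 2 * (p + 1) * (dl y * ∑ x, e (x, y)) := fun y => by
      have b : ∑ x, s (x, y) = ∑ x : F, tw (x, y) + ∑ x, e (x, y) := by simp [e]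
      rw [b, tw_col hF]
      ring
    have a3 : ∑ y, ∑ x, e (x, y) = 0 := by rw [← e0, Fintype.sum_prod_type_right]
    have a4 : ∑ x, e (x, 0) = 2 * ∑ x, i (x, 0) := by
      rw [mul_sum]
      refine sum_congr rfl fun x _ => ?_
      rw [ei]
      simp [tw, dl]
    have a5 : ∑ y, |∑ x, e (x, y)| ≤ 2 * dst tw s := by
      rw [← e1, Fintype.sum_prod_type_right]
      exact sum_le_sum fun y _ => abs_sum_le_sum_abs _ _
    have a6 := (sq fun y => ∑ x, e (x, y)).trans
      (pow_le_pow_left₀ (sum_nonneg fun _ _ => abs_nonneg _) a5 2)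
    simp only [a2, sum_add_distrib, sum_sub_distrib, ← mul_sum, a3, sum_dl, a4] at a1
    linarith
  -- rows
  have r1 : ∀ {t : F × G → ℤ}, Had t → (p + 2) * ∑ x, (∑ y, t (x, y)) ^ 2 =
      (p + 2) * (p * (p + 2) - (p + 2) + 1) := fun {t} ht => by
    have := ht.marg (c := fun y : G => ((0, y) : F × G)) fun x y h => congrArg Prod.snd h
    rw [Fintype.sum_prod_type_right, Fintype.card_prod] at this
    push_cast at this
    rw [hq] at this
    rw [← this]
    have h2 : ∀ x y, ∑ j, t ((x, y) + (0, j)) = ∑ j, t (x, j) := fun x y => by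
      simpa using Equiv.sum_comp (Equiv.addLeft y) fun j => t (x, j)
    simp only [h2, sum_const, card_univ, nsmul_eq_mul, hq]
  have r2 : (p + 1) * (∑ y, i (0, y) - 2 * i (0, 0)) ≤ dst tw s ^ 2 := by
    have a1 := mul_left_cancel₀ (by omega : p + 2 ≠ 0) ((r1 hs).trans (r1 h0).symm)
    have a2 : ∀ x, (∑ y, s (x, y)) ^ 2 = (∑ y : G, tw (x, y)) ^ 2 + (∑ y, e (x, y)) ^ 2 -
        2 * ∑ y, e (x, y) + 2 * (p + 1) * (dl x * ∑ y, e (x, y)) := fun x => by
      have b : ∑ y, s (x, y) = ∑ y : G, tw (x, y) + ∑ y, e (x, y) := by simp [e]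
      rw [b, tw_row hG, hq]
      ring
    have a3 : ∑ x, ∑ y, e (x, y) = 0 := by rw [← e0, Fintype.sum_prod_type]
    have a4 : ∑ y, e (0, y) = -2 * (∑ y, i (0, y) - 2 * i (0, 0)) := by
      rw [← sum_dl fun y => i (0, y), mul_sum, ← sum_sub_distrib, mul_sum]
      refine sum_congr rfl fun y _ => ?_
      rw [ei]
      simp only [tw, dl, MulChar.map_zero, if_true]
      ring
    have a5 : ∑ x, |∑ y, e (x, y)| ≤ 2 * dst tw s := by
      rw [← e1, Fintype.sum_prod_type]
      exact sum_le_sum fun y _ => abs_sum_le_sum_abs _ _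
    have a6 := (sq fun x => ∑ y, e (x, y)).trans
      (pow_le_pow_left₀ (sum_nonneg fun _ _ => abs_nonneg _) a5 2)
    simp only [a2, sum_add_distrib, sum_sub_distrib, ← mul_sum, a3, sum_dl, a4] at a1
    linarith
  have r3 : i (0, 0) ≤ ∑ x, i (x, 0) :=
    single_le_sum (f := fun x => i (x, 0)) (fun x _ => i0 _) (mem_univ 0)
  let A : Finset (F × G) := univ.filter fun z => z.1 = 0 ∨ z.2 = 0
  have A1 : ∀ f : F × G → ℤ, ∑ z ∈ A, f z = ∑ x, f (x, 0) + ∑ y, f (0, y) - f (0, 0) := fun f => by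
    have : ∀ x y, (if x = 0 ∨ y = 0 then f (x, y) else 0) =
        dl y * f (x, y) + dl x * f (x, y) - dl x * (dl y * f (x, y)) := fun x y => by
      by_cases hx : x = 0 <;> by_cases hy : y = 0 <;> simp [dl, hx, hy]
    rw [sum_filter, Fintype.sum_prod_type]
    simp only [this, sum_add_distrib, sum_sub_distrib, ← mul_sum, sum_dl]
  have A2 : (A.card : ℤ) = 2 * p + 1 := by
    have := A1 fun _ => 1
    simp only [sum_const, card_univ, nsmul_eq_mul, mul_one, hq, ← hp] at this
    rw [this]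
    ring
  have A3 : (Fintype.card (F × G) : ℤ) = p * (p + 2) := by
    rw [Fintype.card_prod]
    push_cast
    rw [hq]
  have p3 : 3 ≤ p := by
    have := FiniteField.odd_card_of_char_ne_two hF
    have := Fintype.one_lt_card (α := F)
    omega
  have h2 := skew h0 hs A (fun z hz => by
    obtain ⟨x, y⟩ := z
    simp only [A, mem_filter, mem_univ, true_and, not_or] at hz
    simp only [tw, Prod.neg_mk, dl, neg_eq_zero, hz.1, hz.2, if_false]
    rw [neg_eq_neg_one_mul x, neg_eq_neg_one_mul y, map_mul, map_mul, mul_mul_mul_comm, h1]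
    ring) (by rw [A2, A3]; nlinarith)
  rw [A1, A2, A3] at h2
  change _ * (_ - (∑ x, i (x, 0) + ∑ y, i (0, y) - i (0, 0))) ≤ _ at h2
  rw [hq] at hd
  refine eq_of_dst ?_
  set m := dst tw s
  set j := ∑ x, i (x, 0)
  set j' := ∑ y, i (0, y)
  set ε := i (0, 0)
  have h3 : 12 * m ≤ p + 1 := by nlinarith
  have h4 : (p + 1) * (j + j' - ε) ≤ 3 * m ^ 2 := by nlinarith
  have h5 : 4 * (j + j' - ε) ≤ m := by
    by_contra h
    nlinarith
  by_contra h6
  have h7 : 1 ≤ m := by omega
  have h8 : 3 * (p + 1) ^ 2 * m ≤ 4 * (2 * m ^ 3 + 2 * (2 * p + 1) * m ^ 2) := by nlinarith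
  have h9 : 3 * (p + 1) ^ 2 ≤ 4 * (2 * m ^ 2 + 2 * (2 * p + 1) * m) := by nlinarith
  nlinarith

end twin

end Pool.Agent.Lib.MP_56f651_co
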