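import Pool.Agent.Lib.MP_56f651_co.H83Iso2

/-! Isolation of the sextic residue sequence. -/

open Finset

namespace Pool.Agent.Lib.MP_56f651_co

section general

variable {R : Type} [AddCommGroup R] [Fintype R] [DecidableEq R]

lemma Had.sum_cnv_sq {s : R → ℤ} (h : Had s) :
    ∑ g, cnv s g ^ 2 = Fintype.card R * (Fintype.card R + 1) - 1 := by
  have h1 : ∀ g, cnv s g ^ 2 = ∑ x, ∑ x', s x * s x' * (s (-x - -g) * s (-x' - -g)) := fun g => by
    simp only [cnv, pow_two, sum_mul_sum]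
    refine sum_congr rfl fun x _ => sum_congr rfl fun x' _ => ?_
    rw [show -x - -g = g - x by abel, show -x' - -g = g - x' by abel]
    ring
  have h2 : ∀ x x', ∑ g, s (-x - -g) * s (-x' - -g) =
      -1 + if x = x' then (Fintype.card R + 1 : ℤ) else 0 := fun x x' => by
    refine (Equiv.sum_comp (Equiv.neg R) fun g => s (-x - g) * s (-x' - g)).trans ?_
    rw [h.cor']
    simp only [neg_inj]
  simp only [h1]
  rw [sum_comm, sum_congr rfl fun y _ => sum_comm]
  simp only [← mul_sum, h2, mul_add, sum_add_distrib, mul_ite, mul_zero, sum_ite_eq,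
    mem_univ, if_true, ← sum_mul, h.sum, h.mul_self, sum_const, card_univ, nsmul_eq_mul]
  ring

omit [DecidableEq R] in
lemma cnv_sub {s s' : R → ℤ} (h : ∀ x, s x = 1 ∨ s x = -1) (h' : ∀ x, s' x = 1 ∨ s' x = -1)
    (g : R) : |cnv s' g - cnv s g| ≤ 4 * dst s s' := by
  have e1 := sum_abs_eq h h'
  have e2 : ∑ x, |s' (g - x) - s (g - x)| = 2 * dst s s' :=
    (Equiv.sum_comp (Equiv.subLeft g) fun x => |s' x - s x|).trans e1
  rw [cnv, cnv, ← sum_sub_distrib]
  refine (abs_sum_le_sum_abs _ _).trans ?_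
  rw [show 4 * dst s s' = 2 * dst s s' + 2 * dst s s' by ring]
  nth_rewrite 1 [← e1]
  rw [← e2, ← sum_add_distrib]
  refine sum_le_sum fun x _ => ?_
  rcases h x with a | a <;> rcases h' x with b | b <;> rcases h (g - x) with c | c <;>
    rcases h' (g - x) with d | d <;> simp [a, b, c, d]

end general

variable {F : Type} [Field F] [Fintype F] [DecidableEq F]

lemma orbit_iso {s s0 : F → ℤ} (hs : Had s) (h0 : ∀ x, s0 x = 1 ∨ s0 x = -1)
    (h1 : ∑ x, s0 x = 1) {n : ℕ} (hn : Fintype.card F = 6 * n + 1) {h : F} (hh : h ≠ 0)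
    (ho : n ≤ orderOf h) (hi : ∀ x, s0 (h * x) = s0 x) (hc : cnv s0 0 = 2 * n + 1)
    (hd : 144 * dst s0 s ^ 2 ≤ Fintype.card F) : s = s0 := by
  refine eq_of_dst ?_
  by_contra m0
  have m1 : 1 ≤ dst s0 s := by
    have := dst_nonneg s0 s
    omega
  set m := dst s0 s with hm
  have hN : (Fintype.card F : ℤ) = 6 * n + 1 := by rw [hn]; push_cast; rfl
  rw [hN] at hd
  have n0 : (24 : ℤ) ≤ n := by nlinarith
  have hi' : ∀ (j : ℕ) x, s0 (h ^ j * x) = s0 x := fun j => by
    induction j with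
    | zero => simp
    | succ j ih => intro x; rw [pow_succ', mul_assoc, hi, ih]
  have had : ∀ j : ℕ, Had fun x => s (h ^ j * x) := fun j =>
    hs.equiv { Equiv.mulLeft₀ (h ^ j) (pow_ne_zero j hh) with map_add' := mul_add _ }
  have near : ∀ j : ℕ, dst s (fun x => s (h ^ j * x)) ≤ 2 * m := fun j => by
    have e1 := sum_abs_eq hs.sq (had j).sq
    have e2 := sum_abs_eq h0 hs.sq
    have e3 : ∑ x, |s (h ^ j * x) - s0 (h ^ j * x)| = 2 * m :=
      (Equiv.sum_comp (Equiv.mulLeft₀ (h ^ j) (pow_ne_zero j hh)) fun x => |s x - s0 x|).trans e2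
    have e4 : ∑ x, |s (h ^ j * x) - s x| ≤
        ∑ x, |s (h ^ j * x) - s0 (h ^ j * x)| + ∑ x, |s x - s0 x| := by
      rw [← sum_add_distrib]
      refine sum_le_sum fun x _ => ?_
      rw [hi', abs_sub_comm (s x)]
      exact abs_sub_le _ _ _
    linarith
  have inj : ∀ g : F, g ≠ 0 → Set.InjOn (fun j : ℕ => h ^ j * g) (range n) := by
    intro g hg a ha b hb e
    rw [coe_range, Set.mem_Iio] at ha hb
    exact pow_injOn_Iio_orderOf (ha.trans_le ho) (hb.trans_le ho) (mul_right_cancel₀ hg e)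
  obtain ⟨W, W0, W1, W2⟩ : ∃ W : ℤ, 0 ≤ W ∧ W ^ 2 ≤ 36 * n + 19 ∧ 36 * n + 19 < (W + 1) ^ 2 :=
    ⟨Nat.sqrt (36 * n + 19), by positivity, by exact_mod_cast Nat.sqrt_le' _,
      by exact_mod_cast Nat.lt_succ_sqrt' _⟩
  have hB : ∀ g, g ≠ 0 → |cnv s g - 0| ≤ 8 * m + W := by
    intro g hg
    by_contra hlt
    rw [sub_zero, not_le] at hlt
    have a1 : ∀ j : ℕ, (W + 1) ^ 2 ≤ cnv s (h ^ j * g) ^ 2 := fun j => by
      have b1 := cnv_sub hs.sq (had j).sq g
      have b2 : cnv (fun x => s (h ^ j * x)) g = cnv s (h ^ j * g) := by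
        rw [cnv, cnv, ← Equiv.sum_comp (Equiv.mulLeft₀ (h ^ j) (pow_ne_zero j hh))
          fun x => s x * s (h ^ j * g - x)]
        simp [mul_sub]
      have b3 := abs_sub_abs_le_abs_sub (cnv s g) (cnv s (h ^ j * g))
      rw [b2, abs_sub_comm] at b1
      rw [← sq_abs (cnv s _)]
      exact pow_le_pow_left₀ (by positivity) (by linarith [near j]) 2
    have a2 : (n : ℤ) * (W + 1) ^ 2 ≤ ∑ g, cnv s g ^ 2 := by
      calc (n : ℤ) * (W + 1) ^ 2 = ∑ _j ∈ range n, (W + 1) ^ 2 := by simp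
        _ ≤ ∑ j ∈ range n, cnv s (h ^ j * g) ^ 2 := sum_le_sum fun j _ => a1 j
        _ = ∑ x ∈ (range n).image (fun j : ℕ => h ^ j * g), cnv s x ^ 2 :=
          (sum_image (f := fun x => cnv s x ^ 2) (inj g hg)).symm
        _ ≤ _ := sum_le_sum_of_subset_of_nonneg (subset_univ _) fun _ _ _ => sq_nonneg _
    rw [hs.sum_cnv_sq, hN] at a2
    nlinarith
  have fix : (fun x => s (h ^ 1 * x)) = s := by
    refine eq_of_dst ?_
    by_contra μ0
    have c1 := core2 hs (had 1) (by positivity) hB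
    have c2 := cnv_sub h0 hs.sq 0
    have c3 := near 1
    have c4 := sum_sq_eq hs.sq (had 1).sq
    have μ1 := dst_nonneg s fun x => s (h ^ 1 * x)
    set μ := dst s fun x => s (h ^ 1 * x)
    have c5 : ∑ y, (s (h ^ 1 * -y) - s (-y)) ^ 2 = 4 * μ :=
      (Equiv.sum_comp (Equiv.neg F) fun y => (s (h ^ 1 * y) - s y) ^ 2).trans c4
    set Z := ∑ y, (s (h ^ 1 * y) - s y) * (s (h ^ 1 * -y) - s (-y)) with hZ
    have c6 : |Z| ≤ 4 * μ := by
      have : 2 * |Z| ≤ ∑ y, ((s (h ^ 1 * y) - s y) ^ 2 + (s (h ^ 1 * -y) - s (-y)) ^ 2) := by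
        refine le_trans (mul_le_mul_of_nonneg_left (abs_sum_le_sum_abs _ _) (by norm_num)) ?_
        rw [mul_sum]
        refine sum_le_sum fun y _ => ?_
        rw [abs_mul, ← sq_abs (s (h ^ 1 * y) - s y), ← sq_abs (s (h ^ 1 * -y) - s (-y))]
        nlinarith [sq_nonneg (|s (h ^ 1 * y) - s y| - |s (h ^ 1 * -y) - s (-y)|)]
      rw [sum_add_distrib, c4, c5] at this
      linarith
    have c7 : |cnv s 0| ≤ 2 * n + 1 + 4 * m := by
      rw [hc, ← hm, abs_le] at c2
      exact abs_le.2 ⟨by linarith [c2.1], by linarith [c2.2]⟩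
    have c8 : |cnv s 0 * Z| ≤ (2 * n + 1 + 4 * m) * (4 * μ) := by
      rw [abs_mul]
      exact mul_le_mul c7 c6 (abs_nonneg _) (by positivity)
    have c9 := neg_abs_le (cnv s 0 * Z)
    rw [hN, sub_zero] at c1
    have d0 : 1 ≤ μ := by omega
    have d1 : μ * (4 * n + 1 - 4 * m) ≤ μ * (2 * μ ^ 2 + (8 * m + W) * μ) := by linarith
    have d2 := le_of_mul_le_mul_left d1 (by omega)
    have d3 : μ ^ 2 ≤ (2 * m) ^ 2 := pow_le_pow_left₀ μ1 c3 2
    have d4 : (8 * m + W) * μ ≤ (8 * m + W) * (2 * m) :=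
      mul_le_mul_of_nonneg_left c3 (by positivity)
    nlinarith [sq_nonneg (W - 30 * m)]
  have fix' : ∀ (j : ℕ) x, s (h ^ j * x) = s x := fun j => by
    induction j with
    | zero => simp
    | succ j ih => intro x; rw [pow_succ, mul_assoc, ih, ← congrFun fix x, pow_one]
  have off : ∀ y, y ≠ 0 → s y = s0 y := by
    intro y hy
    by_contra hne
    have : (n : ℤ) ≤ m := by
      calc (n : ℤ) = ∑ j ∈ range n, if s (h ^ j * y) = s0 (h ^ j * y) then 0 else 1 := by
            simp [fix', hi', hne]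
        _ = ∑ x ∈ (range n).image (fun j : ℕ => h ^ j * y), if s x = s0 x then 0 else 1 :=
          (sum_image (f := fun x => if s x = s0 x then (0 : ℤ) else 1) (inj y hy)).symm
        _ ≤ m := sum_le_sum_of_subset_of_nonneg (subset_univ _) fun _ _ _ => by
          split_ifs <;> norm_num
    nlinarith
  have z : s 0 = s0 0 := by
    have a := hs.sum
    rw [← add_sum_erase _ _ (mem_univ 0)] at a h1
    rw [sum_congr rfl fun y hy => off y (ne_of_mem_erase hy)] at a
    linarith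
  refine m0 (sum_eq_zero fun x _ => if_pos ?_)
  by_cases hx : x = 0
  · rw [hx, z]
  · exact off x hx

open Classical in
/-- the sextic residue sequence -/
noncomputable def hall (g x : F) : ℤ :=
  if ∃ k : ℕ, (k % 6 = 0 ∨ k % 6 = 1 ∨ k % 6 = 3) ∧ g ^ k = x then -1 else 1

lemma sum_six (f : ℕ → ℤ) (n : ℕ) :
    ∑ j ∈ range (6 * n), f (j % 6) = n * (f 0 + f 1 + f 2 + f 3 + f 4 + f 5) := by
  induction n with
  | zero => simp
  | succ n ih =>
    rw [show 6 * (n + 1) = 6 * n + 1 + 1 + 1 + 1 + 1 + 1 by ring]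
    simp only [sum_range_succ, ih]
    rw [show 6 * n % 6 = 0 by omega, show (6 * n + 1) % 6 = 1 by omega,
      show (6 * n + 1 + 1) % 6 = 2 by omega, show (6 * n + 1 + 1 + 1) % 6 = 3 by omega,
      show (6 * n + 1 + 1 + 1 + 1) % 6 = 4 by omega,
      show (6 * n + 1 + 1 + 1 + 1 + 1) % 6 = 5 by omega]
    push_cast
    ring

lemma hall_iso {s : F → ℤ} (hs : Had s) {n : ℕ} (hn : Fintype.card F = 6 * n + 1)
    (hodd : n % 2 = 1) {g : F} (hg : orderOf g = 6 * n)
    (hd : 144 * dst (hall g) s ^ 2 ≤ Fintype.card F) : s = hall g := by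
  have g1 : g ^ (6 * n) = 1 := hg ▸ pow_orderOf_eq_one g
  have g0 : g ≠ 0 := fun h => by
    rw [h, zero_pow (by omega)] at g1
    exact zero_ne_one g1
  have fin : IsOfFinOrder g := orderOf_pos_iff.1 (by omega)
  let f : ℕ → ℤ := fun r => if r = 0 ∨ r = 1 ∨ r = 3 then -1 else 1
  have a0 : hall g 0 = 1 := if_neg fun ⟨k, _, hk⟩ => pow_ne_zero k g0 hk
  have a1 : ∀ j, hall g (g ^ j) = f (j % 6) := fun j => by
    classical
    refine if_congr ⟨fun ⟨k, h1, h2⟩ => ?_, fun h => ⟨j, h, rfl⟩⟩ rfl rfl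
    have h3 := fin.pow_eq_pow_iff_modEq.1 h2
    rw [hg] at h3
    have h4 : k % 6 = j % 6 := h3.of_mul_right n
    rwa [← h4]
  have inj : Set.InjOn (fun j : ℕ => g ^ j) (range (6 * n)) := by
    rw [coe_range, ← hg]
    exact pow_injOn_Iio_orderOf
  have im : (range (6 * n)).image (fun j : ℕ => g ^ j) = univ.erase 0 := by
    refine eq_of_subset_of_card_le (fun x hx => ?_) ?_
    · obtain ⟨j, -, rfl⟩ := mem_image.1 hx
      exact mem_erase.2 ⟨pow_ne_zero j g0, mem_univ _⟩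
    · rw [card_image_of_injOn inj, card_erase_of_mem (mem_univ _), card_univ, hn, card_range]
      omega
  have sm : ∀ φ : F → ℤ, ∑ x, φ x = φ 0 + ∑ j ∈ range (6 * n), φ (g ^ j) := fun φ => by
    rw [← add_sum_erase _ _ (mem_univ 0), ← im, sum_image inj]
  have neg : g ^ (3 * n) = -1 := by
    have h1 : g ^ (3 * n) * g ^ (3 * n) = 1 := by rw [← pow_add, ← g1]; congr 1; ring
    refine (mul_self_eq_one_iff.1 h1).resolve_left fun h => ?_
    have := Nat.le_of_dvd (by omega) (orderOf_dvd_of_pow_eq_one h)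
    omega
  refine orbit_iso hs (fun x => ?_) ?_ hn (pow_ne_zero 6 g0) ?_ (fun x => ?_) ?_ hd
  · unfold hall
    split_ifs <;> simp
  · rw [sm, a0]
    simp only [a1, sum_six f]
    simp [f]
  · rw [orderOf_pow' _ (by norm_num), hg, Nat.gcd_mul_right_left, Nat.mul_div_cancel_left _ (by norm_num)]
  · by_cases hx : x = 0
    · rw [hx, mul_zero]
    · have : x ∈ univ.erase 0 := mem_erase.2 ⟨hx, mem_univ _⟩
      rw [← im] at this
      obtain ⟨j, -, rfl⟩ := mem_image.1 this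
      rw [← pow_add, a1, a1, Nat.add_mod_left]
  · have : ∀ j, hall g (g ^ j) * hall g (0 - g ^ j) =
        (fun r => f r * f ((r + 3) % 6)) (j % 6) := fun j => by
      rw [zero_sub, neg_eq_neg_one_mul, ← neg, ← pow_add, a1, a1,
        show (3 * n + j) % 6 = (j % 6 + 3) % 6 by omega]
    rw [cnv, sm, sub_zero, a0]
    simp only [this]
    rw [sum_six fun r => f r * f ((r + 3) % 6)]
    simp [f]
    ring

end Pool.Agent.Lib.MP_56f651_co
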