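import Pool.Agent.Lib.MP_56f651_co.H83Iso3

/-! The three classical constructions are isolated among cyclic Hadamard difference sets. -/

open Finset

namespace Pool.Agent.Lib.MP_56f651_co

lemma Had.shift {R : Type} [AddCommGroup R] [Fintype R] {s : R → ℤ} (h : Had s) (c : R) :
    Had fun x => s (x + c) :=
  ⟨fun _ => h.sq _, (Equiv.sum_comp (Equiv.addRight c) s).trans h.sum, fun d hd => by
    simp only [add_right_comm _ d c]
    exact (Equiv.sum_comp (Equiv.addRight c) fun x => s x * s (x + d)).trans (h.cor d hd)⟩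

lemma had_of_ds {v : ℕ} [NeZero v] {D : Finset (ZMod v)} (hv : v % 4 = 3)
    (hD : D.card = (v - 1) / 2)
    (hl : ∀ d : ZMod v, d ≠ 0 → ((D ×ˢ D).filter (fun q => q.1 - q.2 = d)).card = (v - 3) / 4) :
    Had fun x => if x ∈ D then (-1 : ℤ) else 1 := by
  have e1 : ∀ d, ∑ x, (if x + d ∈ D then (1 : ℤ) else 0) = D.card := fun d => by
    rw [← Equiv.sum_comp (Equiv.subRight d)]; simp
  have e0 : ∑ x, (if x ∈ D then (1 : ℤ) else 0) = D.card := by simp
  have e2 : (D.card : ℤ) * 2 + 1 = v := by omega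
  refine ⟨fun x => by split_ifs <;> simp, ?_, fun d hd => ?_⟩
  · have : ∀ x, (if x ∈ D then (-1 : ℤ) else 1) = 1 - 2 * if x ∈ D then 1 else 0 := fun x => by
      split_ifs <;> rfl
    simp only [this, sum_sub_distrib, ← mul_sum, e0, sum_const, card_univ, ZMod.card]
    simp only [nsmul_eq_mul]; omega
  · have : ∀ x, (if x ∈ D then (-1 : ℤ) else 1) * (if x + d ∈ D then -1 else 1) =
        1 - 2 * (if x ∈ D then 1 else 0) - 2 * (if x + d ∈ D then 1 else 0) +
        4 * if x + d ∈ D ∧ x ∈ D then 1 else 0 := fun x => by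
      split_ifs <;> simp_all
    have e3 : (univ.filter fun x => x + d ∈ D ∧ x ∈ D).card = (v - 3) / 4 := by
      rw [← hl d hd]
      refine card_nbij' (fun x => (x + d, x)) (fun q => q.2) (fun x hx => ?_)
        (fun q hq => ?_) (fun x _ => rfl) fun q hq => ?_
      · simp only [coe_filter, mem_univ, true_and, Set.mem_ofPred_eq, mem_product] at hx ⊢
        exact ⟨hx, by ring⟩
      · simp only [coe_filter, mem_univ, true_and, Set.mem_ofPred_eq, mem_product] at hq ⊢
        rw [← hq.2]; simpa using hq.1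
      · simp only [coe_filter, Set.mem_ofPred_eq] at hq
        rw [← hq.2]; ext <;> simp
    simp only [this, sum_add_distrib, sum_sub_distrib, ← mul_sum, e0, e1, sum_const, card_univ,
      ZMod.card, sum_boole, e3]
    simp only [nsmul_eq_mul]; omega

lemma eq_of_iso {v : ℕ} [NeZero v] {D D₀ : Finset (ZMod v)}
    (h : Had fun x => if x ∈ D then (-1 : ℤ) else 1) {a b : ZMod v} (ha : IsUnit a)
    (hd : 144 * (symmDiff D D₀).card ^ 2 ≤ v) {s0 : ZMod v → ℤ} (h0 : ∀ x, s0 x = 1 ∨ s0 x = -1)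
    (h1 : ∀ x, x ∈ D₀ ↔ s0 (a * x + b) = -1)
    (iso : ∀ t, Had t → 144 * dst s0 t ^ 2 ≤ v → t = s0) : D = D₀ := by
  obtain ⟨u, rfl⟩ := ha
  have h2 := (h.equiv { (u⁻¹).mulLeft with map_add' := mul_add _ }).shift (-b)
  have h3 := iso _ h2 (by
    have : dst s0 (fun x => if (u⁻¹ : (ZMod v)ˣ) * (x + -b) ∈ D then -1 else 1) =
        (symmDiff D D₀).card := by
      rw [dst, ← Equiv.sum_comp (u.mulLeft.trans (Equiv.addRight b)), card_eq_sum_ones,
        ← univ_inter (symmDiff D D₀), ← sum_ite_mem]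
      push_cast
      refine sum_congr rfl fun x _ => ?_
      have := h1 x
      rcases h0 (u * x + b) with c | c <;> by_cases hx : x ∈ D <;>
        simp_all [mem_symmDiff]
    change 144 * dst s0 (fun x => if (u⁻¹ : (ZMod v)ˣ) * (x + -b) ∈ D then -1 else 1) ^ 2 ≤ _
    rw [this]
    exact_mod_cast hd)
  ext x
  rw [h1, ← h3]
  change _ ↔ (if (u⁻¹ : (ZMod v)ˣ) * (u * x + b + -b) ∈ D then (-1 : ℤ) else 1) = -1
  simp

theorem isolated (v : ℕ) (D D₀ : Finset (ZMod v)) (hv : v % 4 = 3) (hD : D.card = (v - 1) / 2)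
    (hl : ∀ d : ZMod v, d ≠ 0 → ((D ×ˢ D).filter (fun q => q.1 - q.2 = d)).card = (v - 3) / 4)
    (a b : ZMod v) (ha : IsUnit a)
    (h : (v.Prime ∧ ∀ x : ZMod v, x ∈ D₀ ↔ (a * x + b ≠ 0 ∧ IsSquare (a * x + b))) ∨
       (v.Prime ∧ v % 6 = 1 ∧ ∃ g : ZMod v, orderOf g = v - 1 ∧
           ∀ x : ZMod v, x ∈ D₀ ↔
             ∃ k : ℕ, (k % 6 = 0 ∨ k % 6 = 1 ∨ k % 6 = 3) ∧ g ^ k = a * x + b) ∨
       (∃ p : ℕ, p.Prime ∧ (p + 2).Prime ∧ v = p * (p + 2) ∧
         ∀ x : ZMod v, x ∈ D₀ ↔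
           (jacobiSym ((a * x + b).val : ℤ) p * jacobiSym ((a * x + b).val : ℤ) (p + 2) = 1 ∨
            (a * x + b).val % (p + 2) = 0)))
    (hd : 144 * (symmDiff D D₀).card ^ 2 ≤ v) : D = D₀ := by
  have : NeZero v := ⟨by omega⟩
  have hs := had_of_ds hv hD hl
  rcases h with ⟨hp, h⟩ | ⟨hp, h6, g, hg, h⟩ | ⟨p, hp, hq, rfl, h⟩
  · have := Fact.mk hp
    have c : ringChar (ZMod v) ≠ 2 := by rw [ZMod.ringChar_zmod_n]; omega
    have m : quadraticChar (ZMod v) (-1) = -1 := by
      rw [quadraticChar_neg_one c, ZMod.card, ZMod.χ₄_nat_three_mod_four hv]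
    refine eq_of_iso (b := b) hs ha hd (qr_had c m).sq (fun x => (h x).trans ?_) fun t ht hd' =>
      qr_iso c m ht (by rwa [ZMod.card])
    by_cases hx : a * x + b = 0
    · simp [hx, qr, dl]
    · rw [← quadraticChar_one_iff_isSquare hx]
      simp only [qr, dl, hx, if_false, zero_sub, neg_inj, ne_eq, not_false_eq_true, true_and]
  · have := Fact.mk hp
    refine eq_of_iso (b := b) hs ha hd (s0 := hall g) (fun x => by unfold hall; split_ifs <;> simp)
      (fun x => (h x).trans ?_) fun t ht hd' =>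
        hall_iso ht (n := v / 6) (by rw [ZMod.card]; omega) (by omega) (by omega)
          (by rwa [ZMod.card])
    unfold hall
    split_ifs with hx <;> simp [hx]
  · have := Fact.mk hp
    have := Fact.mk hq
    have ho : p % 2 = 1 := hp.eq_two_or_odd.resolve_left (by rintro rfl; omega)
    have hc : p.Coprime (p + 2) := (Nat.coprime_primes hp hq).2 (by omega)
    have c1 : ringChar (ZMod p) ≠ 2 := by rw [ZMod.ringChar_zmod_n]; omega
    have c2 : ringChar (ZMod (p + 2)) ≠ 2 := by rw [ZMod.ringChar_zmod_n]; omega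
    have m : quadraticChar (ZMod p) (-1) * quadraticChar (ZMod (p + 2)) (-1) = -1 := by
      rw [quadraticChar_neg_one c1, quadraticChar_neg_one c2, ZMod.card, ZMod.card]
      rcases (by omega : p % 4 = 1 ∨ p % 4 = 3) with h1 | h1
      · rw [ZMod.χ₄_nat_one_mod_four h1, ZMod.χ₄_nat_three_mod_four (by omega)]; rfl
      · rw [ZMod.χ₄_nat_three_mod_four h1, ZMod.χ₄_nat_one_mod_four (by omega)]; rfl
    let e := ZMod.chineseRemainder hc
    refine eq_of_iso (b := b) hs ha hd (s0 := fun x => tw (e x)) (fun x => tw_sq _)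
      (fun x => (h x).trans ?_) fun t ht hd' => ?_
    · generalize a * x + b = y
      rw [← jacobiSym.legendreSym.to_jacobiSym, ← jacobiSym.legendreSym.to_jacobiSym, legendreSym,
        legendreSym, crt_val hc, ← Nat.dvd_iff_mod_eq_zero, ← ZMod.natCast_eq_zero_iff,
        Int.cast_natCast, Int.cast_natCast, tw]
      generalize (y.val : ZMod p) = y1
      generalize (y.val : ZMod (p + 2)) = y2
      by_cases h1 : y1 = 0 <;> by_cases h2 : y2 = 0 <;> simp [h1, h2, dl, neg_eq_iff_eq_neg]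
    · have h1 := tw_iso c1 c2 m (by simp) (ht.equiv e.symm.toAddEquiv) (by
        have : dst tw (fun z => t (e.symm.toAddEquiv z)) = dst (fun x => tw (e x)) t := by
          rw [dst, dst, ← Equiv.sum_comp e.toEquiv]
          simp
        rw [this, ZMod.card, ZMod.card]
        exact_mod_cast hd')
      funext x
      simpa using congrFun h1 (e x)

end Pool.Agent.Lib.MP_56f651_co
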