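import Pool.Agent.Lib.MP_56f651_co.Basic

open Finset

namespace Pool.Agent.Lib.MP_56f651_co

lemma crt_val {p w : ℕ} [NeZero (p * w)] (h : p.Coprime w) (x : ZMod (p * w)) :
    ZMod.chineseRemainder h x = ((x.val : ZMod p), (x.val : ZMod w)) := by
  conv_lhs => rw [← ZMod.natCast_zmod_val x, map_natCast]
  rfl

/-- u fixes all multiples of q -/
def Fix {v : ℕ} (q : ℕ) (u : (ZMod v)ˣ) : Prop := ∀ y : ZMod v, q ∣ y.val → u * y = y

lemma rows' {p w : ℕ} [NeZero (p * w)] [NeZero w] (hp : p.Prime) (h3 : 3 ≤ p) (hc : p.Coprime w)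
    {s : ZMod (p * w) → ℤ} (h : Had s) (Y : Finset (ZMod w))
    (hY : ∀ x : ZMod (p * w), (x.val : ZMod w) ∈ Y → ∀ u : (ZMod (p * w))ˣ, Fix p u → s (u * x) = s x) :
    (Y.card : ℤ) * (p - 3) ≤ w - 1 := by
  have := Fact.mk hp
  let e := ZMod.chineseRemainder hc
  have h1 := (h.equiv e.symm.toAddEquiv).rows hp h3 Y fun y hy a ha => by
    have hu : IsUnit (e.symm (a, 1)) := (Prod.isUnit_iff.mpr ⟨ha.isUnit, isUnit_one⟩).map e.symm
    have h2 := crt_val hc (e.symm (1, y))
    rw [RingEquiv.apply_symm_apply] at h2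
    refine Eq.trans ?_ (hY (e.symm (1, y)) (by have h4 : y = ((e.symm (1, y)).val : ZMod w) := congrArg Prod.snd h2; rwa [← h4]) hu.unit fun z hz => ?_)
    · change s (e.symm (a, y)) = _
      rw [IsUnit.unit_spec, ← map_mul]; simp
    · apply e.injective
      rw [IsUnit.unit_spec, map_mul, RingEquiv.apply_symm_apply, crt_val hc,
        (ZMod.natCast_eq_zero_iff _ _).mpr hz]
      simp
  rwa [ZMod.card] at h1

lemma nat_shape {n : ℕ} (hn : Squarefree n) (h1 : n ≠ 1) (ho : n % 2 = 1)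
    (h : ∀ p q, p.Prime → q.Prime → p ∣ n → q ∣ n → p < q + 3) :
    n.Prime ∨ ∃ p, p.Prime ∧ (p + 2).Prime ∧ n = p * (p + 2) := by
  have hp := Nat.minFac_prime h1
  have odd : ∀ q, q ∣ n → q % 2 = 1 := fun q hq => by
    by_contra h2
    have := (Nat.dvd_of_mod_eq_zero (by omega : q % 2 = 0)).trans hq
    omega
  have key : ∀ q, q.Prime → q ∣ n → q = n.minFac ∨ q = n.minFac + 2 := fun q hq hqn => by
    have := Nat.minFac_le_of_dvd hq.two_le hqn
    have := h q _ hq hp hqn n.minFac_dvd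
    have := odd q hqn
    have := odd _ n.minFac_dvd
    omega
  obtain ⟨m, hm⟩ := n.minFac_dvd
  generalize n.minFac = p at *
  by_cases h2 : m = 1
  · left; rwa [hm, h2, mul_one]
  have ns : ∀ q, q.Prime → ¬ q * q ∣ n := fun q hq h => hq.one_lt.ne' (Nat.isUnit_iff.mp (hn q h))
  have hq := Nat.minFac_prime h2
  obtain ⟨k, hk⟩ := m.minFac_dvd
  generalize m.minFac = q at *
  subst hk hm
  rcases key q hq ⟨p * k, by ring⟩ with rfl | rfl
  · exact absurd ⟨k, by ring⟩ (ns _ hq)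
  by_cases h3 : k = 1
  · exact Or.inr ⟨p, hp, hq, by rw [h3, mul_one]⟩
  have hr := Nat.minFac_prime h3
  obtain ⟨l, hl⟩ := k.minFac_dvd
  generalize k.minFac = r at *
  subst hl
  rcases key r hr ⟨p * (p + 2) * l, by ring⟩ with rfl | rfl
  · exact absurd ⟨(r + 2) * l, by ring⟩ (ns _ hr)
  · exact absurd ⟨p * l, by ring⟩ (ns _ hr)

section
variable {v : ℕ} [NeZero v] (hv : v % 4 = 3) {s : ZMod v → ℤ} (h : Had s)
  {M : Subgroup (ZMod v)ˣ} (hM : ∀ u u', u ∉ M → u' ∉ M → u * u' ∈ M)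
  (hs : ∀ t ∈ M, ∀ x, s (t * x) = s x)

omit [NeZero v] in
include hM in
lemma sq_mem (u : (ZMod v)ˣ) : u * u ∈ M := by
  by_cases h : u ∈ M
  exacts [M.mul_mem h h, hM u u h h]

omit [NeZero v] in
include hv in
lemma three_le {p : ℕ} (hp : p.Prime) (h : p ∣ v) : 3 ≤ p := by
  have := hp.two_le
  by_contra h1
  obtain rfl : p = 2 := by omega
  omega

include hv h hM hs

lemma sqfree : Squarefree v := by
  rw [Nat.squarefree_iff_prime_squarefree]
  rintro p hp ⟨k, rfl⟩
  have h3 := three_le hv hp ⟨p * k, by ring⟩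
  revert s M
  revert ‹NeZero _›
  rw [mul_assoc]
  intro _ s h M hM hs
  exact h.sqfree hp h3 (dvd_mul_right p k) fun u x => by
    rw [← Units.val_mul, hs _ (sq_mem hM u)]

lemma P0 {p : ℕ} (hp : p.Prime) (hpv : p ∣ v) (h0 : ∀ u, Fix p u → u ∈ M) : p = 3 := by
  have h3 := three_le hv hp hpv
  have h1 := sqfree hv h hM hs
  obtain ⟨w, rfl⟩ := hpv
  have : NeZero w := ⟨fun h => NeZero.ne (p * w) (by simp [h])⟩
  have h2 := rows' hp h3 (Nat.coprime_of_squarefree_mul h1) h univ fun x _ u hu => hs u (h0 u hu) x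
  rw [card_univ, ZMod.card] at h2
  have h4 : (0 : ℤ) < w := by exact_mod_cast NeZero.pos w
  by_contra h5
  have : (4 : ℤ) ≤ p := by exact_mod_cast (by omega : 4 ≤ p)
  nlinarith

lemma P1 {p q : ℕ} (hp : p.Prime) (hq : q.Prime) (hpv : p ∣ v) (hqv : q ∣ v)
    (h1 : ∃ u, Fix q u ∧ u ∉ M) : p < q + 3 := by
  by_cases hpq : p = q
  · omega
  have h3 := three_le hv hp hpv
  have h2 := sqfree hv h hM hs
  obtain ⟨u', hu', hu''⟩ := h1
  obtain ⟨w, rfl⟩ := hpv
  have : NeZero w := ⟨fun h => NeZero.ne (p * w) (by simp [h])⟩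
  have hqw : q ∣ w := ((Nat.coprime_primes hq hp).mpr (Ne.symm hpq)).dvd_of_dvd_mul_left hqv
  obtain ⟨k, hk⟩ := id hqw
  have h4 := rows' hp h3 (Nat.coprime_of_squarefree_mul h2) h
    ((range k).image fun i : ℕ => ((q * i : ℕ) : ZMod w)) fun x hx u hu => by
      obtain ⟨i, -, hi⟩ := mem_image.mp hx
      have h4 : q ∣ x.val := (Nat.modEq_zero_iff_dvd.mp ((((ZMod.natCast_eq_natCast_iff _ _ _).mp
        hi).symm.of_dvd hqw).trans (Nat.modEq_zero_iff_dvd.mpr (dvd_mul_right q i))))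
      by_cases h5 : u ∈ M
      · exact hs u h5 x
      · rw [← hs _ (hM u u' h5 hu'') x, Units.val_mul, mul_assoc, hu' x h4]
  have h5 : 0 < k := Nat.pos_of_ne_zero fun h => NeZero.ne w (by simp [hk, h])
  rw [card_image_of_injOn, card_range, hk] at h4
  · by_contra h6
    have : (q : ℤ) + 3 ≤ p := by exact_mod_cast not_lt.mp h6
    push_cast at h4
    nlinarith
  · intro i hi j hj hij
    rw [coe_range, Set.mem_Iio] at hi hj
    have := (ZMod.natCast_eq_natCast_iff' _ _ _).mp hij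
    rw [hk, Nat.mul_mod_mul_left, Nat.mul_mod_mul_left, Nat.mod_eq_of_lt hi,
      Nat.mod_eq_of_lt hj] at this
    exact Nat.eq_of_mul_eq_mul_left hq.pos this

lemma all_P1 (h3 : v ≠ 3) {p : ℕ} (hp : p.Prime) (hpv : p ∣ v) : ∃ u, Fix p u ∧ u ∉ M := by
  by_contra h0
  push Not at h0
  obtain rfl := P0 hv h hM hs hp hpv h0
  have h1 := sqfree hv h hM hs
  have h2 := fun {p q : ℕ} => P1 (p := p) (q := q) hv h hM hs
  have h4 := fun {p : ℕ} => P0 (p := p) hv h hM hs
  obtain ⟨w, rfl⟩ := hpv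
  have hc := Nat.coprime_of_squarefree_mul h1
  rcases nat_shape (n := w) h1.of_mul_right (by omega) (by omega) (fun p q hp hq h5 h6 => by
    refine h2 hp hq (h5.mul_left _) (h6.mul_left _) ?_
    by_contra h7
    push Not at h7
    obtain rfl := h4 hq (h6.mul_left _) h7
    exact absurd (Nat.Coprime.eq_one_of_dvd hc h6) (by omega)) with h5 | ⟨q, h5, -, h6⟩
  · have := Fact.mk h5
    obtain ⟨i, hi⟩ := (ZMod.exists_sq_eq_neg_one_iff (p := w)).mpr (by omega)
    let e := ZMod.chineseRemainder hc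
    have u1 : IsUnit (e.symm (-1, 1)) := (Prod.isUnit_iff.mpr ⟨isUnit_one.neg, isUnit_one⟩).map e.symm
    have u2 : IsUnit (e.symm (1, i)) := (Prod.isUnit_iff.mpr ⟨isUnit_one,
      IsUnit.of_mul_eq_one (-i) (by linear_combination hi)⟩).map e.symm
    have m1 := h0 u1.unit fun z hz => e.injective (by
      rw [IsUnit.unit_spec, map_mul, RingEquiv.apply_symm_apply, crt_val hc,
        (ZMod.natCast_eq_zero_iff _ _).mpr hz]
      simp)
    refine h3 (h.symm hv fun x => ?_)
    rw [← hs _ (M.mul_mem m1 (sq_mem hM u2.unit)) x]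
    congr 1
    apply e.injective
    simp [← hi]
    ext <;> simp
  · have h7 : q % 2 = 1 := by
      by_contra h7
      have : 2 ∣ w := h6 ▸ (Nat.dvd_of_mod_eq_zero (by omega)).mul_right _
      omega
    obtain ⟨k, rfl⟩ : ∃ k, q = 2 * k + 1 := ⟨q / 2, by omega⟩
    have : w = 4 * (k * k + 2 * k) + 3 := by rw [h6]; ring
    omega

lemma prime_case (h3 : v ≠ 3) (hp : v.Prime) :
    ∃ a : ZMod v, IsUnit a ∧ ∀ x, s x = -1 ↔ (a * x ≠ 0 ∧ IsSquare (a * x)) := by
  have := Fact.mk hp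
  have hc : ringChar (ZMod v) ≠ 2 := by rw [ZMod.ringChar_zmod_n]; omega
  have h1 : ∀ a : ZMod v, a ≠ 0 → IsSquare a → ∀ x, s (a * x) = s x := by
    rintro _ ha ⟨b, rfl⟩ x
    exact hs _ (sq_mem hM (Units.mk0 b fun h => ha (by simp [h]))) x
  have h2 : quadraticChar (ZMod v) (-1) = -1 := quadraticChar_neg_one_iff_not_isSquare.mpr
    (by rw [ZMod.exists_sq_eq_neg_one_iff]; omega)
  have h4 : ∀ a : ZMod v, a ≠ 0 → (quadraticChar (ZMod v) a = 1 ∧ s a = s 1) ∨
      (quadraticChar (ZMod v) a = -1 ∧ s a = s (-1)) := fun a ha => by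
    rcases quadraticChar_dichotomy ha with h5 | h5
    · exact Or.inl ⟨h5, by simpa using h1 a ha ((quadraticChar_one_iff_isSquare ha).mp h5) 1⟩
    · refine Or.inr ⟨h5, ?_⟩
      have h6 : quadraticChar (ZMod v) (-a) = 1 := by rw [neg_eq_neg_one_mul, map_mul, h2, h5]; rfl
      simpa using h1 (-a) (neg_ne_zero.mpr ha)
        ((quadraticChar_one_iff_isSquare (neg_ne_zero.mpr ha)).mp h6) (-1)
  have h5 : s (-1) = -s 1 := by
    by_contra h5
    have h6 : s (-1) = s 1 := by have := h.sq 1; have := h.sq (-1); omega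
    refine h3 (h.symm hv fun x => ?_)
    by_cases hx : x = 0
    · simp [hx]
    · have := h4 x hx; have := h4 (-x) (neg_ne_zero.mpr hx); omega
  have h6 : ∀ a, s a = s 1 * quadraticChar (ZMod v) a + if a = 0 then s 0 else 0 := fun a => by
    split_ifs with ha
    · simp [ha]
    · rcases h4 a ha with h7 | h7 <;> rw [h7.1, h7.2] <;> omega
  have h7 := h.sum
  rw [sum_congr rfl fun a _ => h6 a, sum_add_distrib, ← mul_sum, quadraticChar_sum_zero hc] at h7
  simp only [mul_zero, sum_ite_eq', mem_univ, if_true, zero_add] at h7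
  have key : ∀ x : ZMod v, (x ≠ 0 ∧ IsSquare x) ↔ quadraticChar (ZMod v) x = 1 := fun x =>
    ⟨fun h => (quadraticChar_one_iff_isSquare h.1).mpr h.2, fun h => by
      have : x ≠ 0 := by rintro rfl; simp at h
      exact ⟨this, (quadraticChar_one_iff_isSquare this).mp h⟩⟩
  rcases h.sq 1 with h8 | h8
  · refine ⟨-1, isUnit_one.neg, fun x => ?_⟩
    rw [key, map_mul, h2, h6 x, h8]
    split_ifs with hx
    · simp [hx, h7]
    · omega
  · refine ⟨1, isUnit_one, fun x => ?_⟩
    rw [key, one_mul, h6 x, h8]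
    split_ifs with hx
    · simp [hx, h7]
    · omega

lemma twin_case {p : ℕ} (hp : p.Prime) (hq : (p + 2).Prime) (hv' : v = p * (p + 2)) :
    ∃ a : ZMod v, IsUnit a ∧ ∀ x, s x = -1 ↔ (jacobiSym ((a * x).val : ℤ) p *
      jacobiSym ((a * x).val : ℤ) (p + 2) = 1 ∨ (a * x).val % (p + 2) = 0) := by
  have h3 := three_le hv hp ⟨_, hv'⟩
  have hv3 : v ≠ 3 := by nlinarith
  obtain ⟨u1, f1, n1⟩ := all_P1 hv h hM hs hv3 hp ⟨_, hv'⟩
  obtain ⟨u2, f2, n2⟩ := all_P1 hv h hM hs hv3 hq ⟨p, by rw [hv', mul_comm]⟩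
  have hc := Nat.coprime_of_squarefree_mul (hv' ▸ sqfree hv h hM hs)
  subst hv'
  have := Fact.mk hp
  have := Fact.mk hq
  have ho := hp.eq_two_or_odd
  have c1 : ringChar (ZMod p) ≠ 2 := by rw [ZMod.ringChar_zmod_n]; omega
  have c2 : ringChar (ZMod (p + 2)) ≠ 2 := by rw [ZMod.ringChar_zmod_n]; omega
  let e := ZMod.chineseRemainder hc
  let χ := quadraticChar (ZMod p)
  let ψ := quadraticChar (ZMod (p + 2))
  let t : ZMod p × ZMod (p + 2) → ℤ := fun z => s (e.symm z)
  have ht : Had t := h.equiv e.symm.toAddEquiv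
  have T0 : ∀ u ∈ M, ∀ z, t (e u * z) = t z := fun u hu z => by
    simp only [t, map_mul, RingEquiv.symm_apply_apply, hs u hu]
  have S0 : ∀ u : (ZMod (p * (p + 2)))ˣ, χ (e u).1 = 1 → ψ (e u).2 = 1 → u ∈ M := by
    intro u h1 h2
    have hu := Prod.isUnit_iff.mp (u.isUnit.map e)
    obtain ⟨a, ha⟩ := (quadraticChar_one_iff_isSquare hu.1.ne_zero).mp h1
    obtain ⟨b, hb⟩ := (quadraticChar_one_iff_isSquare hu.2.ne_zero).mp h2
    have h4 : (u : ZMod (p * (p + 2))) = e.symm (a, b) * e.symm (a, b) := by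
      rw [← map_mul, RingEquiv.eq_symm_apply]; exact Prod.ext ha hb
    have h5 := isUnit_of_mul_isUnit_left (h4 ▸ u.isUnit)
    convert sq_mem hM h5.unit
    exact Units.ext h4
  have g1 : (e u1).2 = 1 := by
    have h1 := crt_val hc (e.symm (0, 1))
    rw [RingEquiv.apply_symm_apply] at h1
    have := congrArg (fun x => (e x).2) (f1 (e.symm (0, 1))
      ((ZMod.natCast_eq_zero_iff _ _).mp (congrArg Prod.fst h1).symm))
    simpa using this
  have g2 : (e u2).1 = 1 := by
    have h1 := crt_val hc (e.symm (1, 0))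
    rw [RingEquiv.apply_symm_apply] at h1
    have := congrArg (fun x => (e x).1) (f2 (e.symm (1, 0))
      ((ZMod.natCast_eq_zero_iff _ _).mp (congrArg Prod.snd h1).symm))
    simpa using this
  have k1 : χ (e u1).1 = -1 := (quadraticChar_dichotomy (Prod.isUnit_iff.mp
    (u1.isUnit.map e)).1.ne_zero).resolve_left fun h => n1 (S0 _ h (by rw [g1, map_one]))
  have k2 : ψ (e u2).2 = -1 := (quadraticChar_dichotomy (Prod.isUnit_iff.mp
    (u2.isUnit.map e)).2.ne_zero).resolve_left fun h => n2 (S0 _ (by rw [g2, map_one]) h)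
  have χ0 : χ 0 = 0 := quadraticChar_zero
  have ψ0 : ψ 0 = 0 := quadraticChar_zero
  have T1 : ∀ a b, χ a * ψ b = 1 → ∀ z, t ((a, b) * z) = t z := by
    intro a b hab z
    have ha : a ≠ 0 := by rintro rfl; simp [χ0] at hab
    have hb : b ≠ 0 := by rintro rfl; simp [ψ0] at hab
    have hu : IsUnit (e.symm (a, b)) := (Prod.isUnit_iff.mpr ⟨ha.isUnit, hb.isUnit⟩).map e.symm
    have h1 : e hu.unit = (a, b) := e.apply_symm_apply _
    rw [← h1]
    refine T0 _ ?_ z
    rcases quadraticChar_dichotomy ha with h2 | h2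
    · exact S0 _ (by rw [h1]; exact h2) (by rw [h1]; rwa [show χ a = 1 from h2, one_mul] at hab)
    · refine (M.mul_mem_cancel_left (hM _ _ n1 n2)).mp (S0 _ ?_ ?_)
      · simp only [Units.val_mul, map_mul, Prod.fst_mul, h1, g2, k1, map_one]
        rw [show χ a = -1 from h2]; rfl
      · simp only [Units.val_mul, map_mul, Prod.snd_mul, h1, g1, k2, map_one]
        rw [show χ a = -1 from h2] at hab; omega
  have m1 : χ (-1) * ψ (-1) = -1 := by
    rw [quadraticChar_neg_one c1, quadraticChar_neg_one c2, ZMod.card, ZMod.card]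
    rcases (by omega : p % 4 = 1 ∨ p % 4 = 3) with h1 | h1
    · rw [ZMod.χ₄_nat_one_mod_four h1, ZMod.χ₄_nat_three_mod_four (by omega)]; rfl
    · rw [ZMod.χ₄_nat_three_mod_four h1, ZMod.χ₄_nat_one_mod_four (by omega)]; rfl
  have A1 : ∀ a, a ≠ 0 → t (a, 0) = t (1, 0) := fun a ha => by
    rcases quadraticChar_dichotomy ha with h1 | h1
    · simpa using T1 a 1 (by rw [map_one, mul_one]; exact h1) (1, 0)
    · simpa using T1 a (e u2).2 (by rw [k2, show χ a = -1 from h1]; rfl) (1, 0)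
  have A2 : ∀ b, b ≠ 0 → t (0, b) = t (0, 1) := fun b hb => by
    rcases quadraticChar_dichotomy hb with h1 | h1
    · simpa using T1 1 b (by rw [map_one, one_mul]; exact h1) (0, 1)
    · simpa using T1 (e u1).1 b (by rw [k1, show ψ b = -1 from h1]; rfl) (0, 1)
  have A3 : ∀ a b, a ≠ 0 → b ≠ 0 → (χ a * ψ b = 1 ∧ t (a, b) = t (1, 1)) ∨
      (χ a * ψ b = -1 ∧ t (a, b) = t (-1, -1)) := fun a b ha hb => by
    have h1 : χ a * ψ b = 1 ∨ χ a * ψ b = -1 := by
      rcases quadraticChar_dichotomy ha with h1 | h1 <;>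
        rcases quadraticChar_dichotomy hb with h2 | h2 <;> simp [χ, ψ, h1, h2]
    refine h1.imp (fun h1 => ⟨h1, by simpa using T1 a b h1 (1, 1)⟩) fun h1 => ⟨h1, ?_⟩
    simpa using T1 (-1 * a) (-1 * b) (by
      rw [map_mul, map_mul, mul_mul_mul_comm, m1, h1]; rfl) (-1, -1)
  have A4 : t (-1, -1) = -t (1, 1) := by
    by_contra h5
    have h6 : t (-1, -1) = t (1, 1) := by have := ht.sq (1, 1); have := ht.sq (-1, -1); omega
    have h7 : ∀ a b, t (-a, -b) = t (a, b) := fun a b => by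
      by_cases ha : a = 0 <;> by_cases hb : b = 0
      · simp [ha, hb]
      · rw [ha, neg_zero, A2 b hb, A2 _ (neg_ne_zero.mpr hb)]
      · rw [hb, neg_zero, A1 a ha, A1 _ (neg_ne_zero.mpr ha)]
      · have := A3 a b ha hb; have := A3 _ _ (neg_ne_zero.mpr ha) (neg_ne_zero.mpr hb); omega
    refine hv3 (h.symm hv fun x => ?_)
    have := h7 (e x).1 (e x).2
    simpa only [t, ← Prod.neg_mk, Prod.mk.eta, ← map_neg, RingEquiv.symm_apply_apply] using this
  have A5 : ∀ a b, t (a, b) = t (1, 1) * (χ a * ψ b) + (if b = 0 then t (1, 0) else 0) +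
      (if a = 0 then t (0, 1) else 0) +
      if a = 0 then if b = 0 then t (0, 0) - t (1, 0) - t (0, 1) else 0 else 0 := fun a b => by
    by_cases ha : a = 0 <;> by_cases hb : b = 0
    · simp [ha, hb, χ0]
    · simp [ha, hb, A2 b hb, χ0]
    · simp [ha, hb, A1 a ha, ψ0]
    · rcases A3 a b ha hb with h1 | h1 <;> simp [ha, hb, h1, A4]
  have A6 := ht.sum
  rw [Fintype.sum_prod_type, sum_congr rfl fun a _ => sum_congr rfl fun b _ => A5 a b] at A6
  simp only [sum_add_distrib, ← mul_sum, ψ, quadraticChar_sum_zero c2, mul_zero, sum_ite_eq',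
    mem_univ, if_true, sum_const, card_univ, ZMod.card, nsmul_eq_mul, sum_ite_irrel,
    mul_ite] at A6
  push_cast at A6
  have hp3 : (3 : ℤ) ≤ p := by exact_mod_cast h3
  have A7 : t (0, 0) = -1 ∧ t (1, 0) = -1 ∧ t (0, 1) = 1 := by
    rcases ht.sq (0, 0) with a | a <;> rcases ht.sq (1, 0) with b | b <;>
      rcases ht.sq (0, 1) with c | c <;> rw [a, b, c] at A6 ⊢ <;> omega
  have key : ∀ x : ZMod (p * (p + 2)), (jacobiSym (x.val : ℤ) p * jacobiSym (x.val : ℤ) (p + 2) = 1 ∨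
      x.val % (p + 2) = 0) ↔ (χ (e x).1 * ψ (e x).2 = 1 ∨ (e x).2 = 0) := fun x => by
    rw [← jacobiSym.legendreSym.to_jacobiSym, ← jacobiSym.legendreSym.to_jacobiSym, legendreSym,
      legendreSym, crt_val hc, ZMod.natCast_eq_zero_iff, Nat.dvd_iff_mod_eq_zero, Int.cast_natCast,
      Int.cast_natCast]
  have fin : ∀ a b, t (a, b) = -1 ↔ (-t (1, 1) * (χ a * ψ b) = 1 ∨ b = 0) := fun a b => by
    rw [A5, A7.1, A7.2.1, A7.2.2]
    by_cases ha : a = 0 <;> by_cases hb : b = 0 <;> simp [ha, hb, neg_eq_iff_eq_neg, χ0, ψ0]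
  have fin' : ∀ x, s x = t ((e x).1, (e x).2) := fun x => by simp [t]
  rcases ht.sq (1, 1) with h8 | h8
  · refine ⟨-1, isUnit_one.neg, fun x => ?_⟩
    rw [key, fin', fin, h8, map_mul, map_neg, map_one, Prod.fst_mul, Prod.snd_mul, map_mul, map_mul,
      mul_mul_mul_comm]
    change _ ↔ χ (-1) * ψ (-1) * _ = 1 ∨ -1 * _ = 0
    rw [m1]; simp
  · refine ⟨1, isUnit_one, fun x => ?_⟩
    rw [key, fin', fin, h8]; simp

end

theorem main (v : ℕ) (D : Finset (ZMod v)) (hv : v % 4 = 3) (hD : D.card = (v - 1) / 2)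
    (hl : ∀ d : ZMod v, d ≠ 0 → ((D ×ˢ D).filter (fun q => q.1 - q.2 = d)).card = (v - 3) / 4)
    (M : Subgroup (ZMod v)ˣ) (hM : M.index ≤ 2)
    (hm : ∀ t ∈ M, ∃ b : ZMod v, D.image (fun x => (t : ZMod v) * x) = D.image (fun x => x + b)) :
    ∃ a b : ZMod v, IsUnit a ∧
      ((v.Prime ∧ ∀ x : ZMod v, x ∈ D ↔ (a * x + b ≠ 0 ∧ IsSquare (a * x + b))) ∨
       (∃ p : ℕ, p.Prime ∧ (p + 2).Prime ∧ v = p * (p + 2) ∧
         ∀ x : ZMod v, x ∈ D ↔
           (jacobiSym ((a * x + b).val : ℤ) p * jacobiSym ((a * x + b).val : ℤ) (p + 2) = 1 ∨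
            (a * x + b).val % (p + 2) = 0))) := by
  have : NeZero v := ⟨by omega⟩
  by_cases h3 : v = 3
  · subst h3
    obtain ⟨x, rfl⟩ := card_eq_one.mp hD
    refine ⟨1, 1 - x, isUnit_one, Or.inl ⟨by norm_num, ?_⟩⟩
    clear hD hl hm
    revert x; decide
  have hM' : ∀ u u', u ∉ M → u' ∉ M → u * u' ∈ M := fun u u' hu hu' => by
    have h1 := M.index_ne_zero_of_finite
    rcases (by omega : M.index = 1 ∨ M.index = 2) with h2 | h2
    · rw [Subgroup.index_eq_one] at h2; simp [h2]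
    · rw [Subgroup.mul_mem_iff_of_index_two h2]; tauto
  let c : ZMod v := -2 * ∑ x ∈ D, x
  let s : ZMod v → ℤ := fun x => if x + c ∈ D then -1 else 1
  have hk : 2 * (D.card : ZMod v) = -1 := by
    have : 2 * D.card + 1 = v := by omega
    have h2 := congrArg (Nat.cast : ℕ → ZMod v) this
    rw [ZMod.natCast_self] at h2
    push_cast at h2
    linear_combination h2
  have hs : ∀ t ∈ M, ∀ x, s (t * x) = s x := by
    intro t ht x
    obtain ⟨b, hb⟩ := hm t ht
    have h1 := congrArg (∑ x ∈ ·, x) hb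
    have hi : Function.Injective fun x => (t : ZMod v) * x := fun a b h =>
      (Units.mul_right_inj t).mp h
    simp only [sum_image hi.injOn,
      sum_image (add_left_injective b).injOn, sum_add_distrib, sum_const, nsmul_eq_mul] at h1
    rw [← mul_sum] at h1
    have h2 : b = t * c - c := by
      simp only [c]
      linear_combination 2 * h1 + b * hk
    refine if_congr ?_ rfl rfl
    rw [← (add_left_injective b).mem_finset_image, ← hb, h2,
      show (t : ZMod v) * x + c + (t * c - c) = t * (x + c) by ring]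
    exact hi.mem_finset_image
  have h : Had s := by
    have e1 : ∀ d, ∑ x, (if x + d ∈ D then (1 : ℤ) else 0) = D.card := fun d => by
      rw [← Equiv.sum_comp (Equiv.subRight d)]; simp
    have e2 : (D.card : ℤ) * 2 + 1 = v := by omega
    refine ⟨fun x => by simp only [s]; split_ifs <;> simp, ?_, fun d hd => ?_⟩
    · have : ∀ x, s x = 1 - 2 * if x + c ∈ D then 1 else 0 := fun x => by
        simp only [s]; split_ifs <;> rfl
      simp only [this, sum_sub_distrib, ← mul_sum, e1, sum_const, card_univ, ZMod.card]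
      simp only [nsmul_eq_mul]; omega
    · have : ∀ x, s x * s (x + d) = 1 - 2 * (if x + c ∈ D then 1 else 0) -
          2 * (if x + (d + c) ∈ D then 1 else 0) +
          4 * if x + d + c ∈ D ∧ x + c ∈ D then 1 else 0 := fun x => by
        simp only [s, add_assoc]; split_ifs <;> simp_all
      have e3 : (univ.filter fun x => x + d + c ∈ D ∧ x + c ∈ D).card = (v - 3) / 4 := by
        rw [← hl d hd]
        refine card_nbij' (fun x => (x + d + c, x + c)) (fun q => q.2 - c) (fun x hx => ?_)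
          (fun q hq => ?_) (fun x _ => by simp) fun q hq => ?_
        · simp only [coe_filter, mem_univ, true_and, Set.mem_ofPred_eq, mem_product] at hx ⊢
          exact ⟨hx, by ring⟩
        · simp only [coe_filter, mem_univ, true_and, Set.mem_ofPred_eq, mem_product] at hq ⊢
          rw [← hq.2]; simpa using hq.1
        · simp only [coe_filter, Set.mem_ofPred_eq] at hq
          rw [← hq.2]; ext <;> simp
      simp only [this, sum_add_distrib, sum_sub_distrib, ← mul_sum, e1, sum_const, card_univ,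
        ZMod.card, sum_boole, e3]
      simp only [nsmul_eq_mul]; omega
  have hx : ∀ x, x ∈ D ↔ s (x - c) = -1 := fun x => by simp [s]
  rcases nat_shape (sqfree hv h hM' hs) (by omega) (by omega) (fun p q hp hq h1 h2 =>
    P1 hv h hM' hs hp hq h1 h2 (all_P1 hv h hM' hs h3 hq h2)) with h1 | ⟨p, hp, hq, h1⟩
  · obtain ⟨a, ha, h2⟩ := prime_case hv h hM' hs h3 h1
    exact ⟨a, -a * c, ha, Or.inl ⟨h1, fun x => by
      rw [hx, h2, show a * (x - c) = a * x + -a * c by ring]⟩⟩
  · obtain ⟨a, ha, h2⟩ := twin_case hv h hM' hs hp hq h1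
    exact ⟨a, -a * c, ha, Or.inr ⟨p, hp, hq, h1, fun x => by
      rw [hx, h2, show a * (x - c) = a * x + -a * c by ring]⟩⟩

end Pool.Agent.Lib.MP_56f651_co
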